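import Pool.Agent.Helper45.RM.Defs

/-!
# Representations of quadratic monomial algebras: the schemes
-/

set_option autoImplicit false

open AlgebraicGeometry MvPolynomial
open Pool.Agent.Helper81.HG

namespace Pool.Agent.Helper81.RP

/-- The scheme over `ℤ/N` of `n`-dimensional representations of the algebra with generators `x_v`,
`v ∈ V`, and relations `x_v x_w = 0` for the edges `(v, w) ∈ E` of a directed graph: families of
`n × n` matrices `x_v`, `v ∈ V`, with `x_v x_w = 0` for all `(v, w) ∈ E`. -/
noncomputable def Reps (N n : ℕ) {V : Type} (E : Set (V × V)) : Scheme.{0} :=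
  Zeros N {f : MvPolynomial (V × (Fin n × Fin n)) ℤ | ∃ e ∈ E, ∃ i j,
    f = ∑ k, X (e.1, (i, k)) * X (e.2, (k, j))}

/-- the schemes of `n`-dimensional representations of the algebras with finitely many generators
and relations `x_v x_w = 0` -/
def MonomialReps (N n : ℕ) : Set Scheme.{0} :=
  {Y | ∃ (V : Type) (_ : Finite V) (E : Set (V × V)), Y = Reps N n E}

/-- the same for the directed graphs with four layers whose edges go from a layer to the next
lower one -/
def LayeredReps (N n : ℕ) : Set Scheme.{0} :=
  {Y | ∃ (V : Type) (_ : Finite V) (E : Set (V × V)) (h : V → Fin 4),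
    (∀ e ∈ E, (h e.1 : ℕ) = h e.2 + 1) ∧ Y = Reps N n E}

end Pool.Agent.Helper81.RP
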