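import Pool.Agent.Helper81.RP.Red

/-!
# Vectors in a family of linear subspaces

`E` is a system, `L i` (`i ∈ I`) are linear forms on `A^n` whose coefficients are functions on the
solutions of `E`.  The system `FS L E k M` adds `k` vectors in the common kernel of the forms
(the columns of a matrix `v`) and a `k × M` matrix `z` with `v z = 0`.
-/

set_option autoImplicit false

open MvPolynomial
open Pool.Agent.Helper81.CP Pool.Agent.Helper45.RM

namespace Pool.Agent.Helper81.RP

/-- the variables -/
abbrev FV (n : ℕ) (σ : Type) (k M : ℕ) : Type := σ ⊕ (Fin n × Fin k ⊕ Fin k × Fin M)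

section
variable {n : ℕ} {σ I : Type} (L : I → Fin n → MvPolynomial σ ℤ) (E : Set (MvPolynomial σ ℤ))

/-- the system -/
noncomputable def FS (k M : ℕ) : Set (MvPolynomial (FV n σ k M) ℤ) :=
  rename Sum.inl '' E ∪
    (Set.range fun p : I × Fin k => ∑ a, rename Sum.inl (L p.1 a) * X (Sum.inr (Sum.inl (a, p.2)))) ∪
    (Set.range fun p : Fin n × Fin M =>
      ∑ c, X (Sum.inr (Sum.inl (p.1, c))) * X (Sum.inr (Sum.inr (c, p.2))))

/-- solutions of the base -/
def bs {k M : ℕ} {A : Type} (x : FV n σ k M → A) : σ → A := fun i => x (Sum.inl i)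

/-- the vectors -/
def vv {k M : ℕ} {A : Type} (x : FV n σ k M → A) (a : Fin n) (c : Fin k) : A :=
  x (Sum.inr (Sum.inl (a, c)))

/-- the relations -/
def zz {k M : ℕ} {A : Type} (x : FV n σ k M → A) (c : Fin k) (j : Fin M) : A :=
  x (Sum.inr (Sum.inr (c, j)))

lemma pt_fs {k M : ℕ} {A : Type} [CommRing A] {x : FV n σ k M → A} : Pt (FS L E k M) x ↔
    Pt E (bs x) ∧ (∀ i c, ∑ a, ev (bs x) (L i a) * vv x a c = 0) ∧
      ∀ a j, ∑ c, vv x a c * zz x c j = 0 := by
  unfold FS Pt
  simp only [Set.mem_union, or_imp, forall_and, Set.forall_mem_image, Set.forall_mem_range,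
    Prod.forall, map_sum, map_mul, ev_rename, ev_X]
  exact and_assoc

lemma fv_ext {k M : ℕ} {A : Type} {x y : FV n σ k M → A} (h1 : bs x = bs y)
    (h2 : ∀ a c, vv x a c = vv y a c) (h3 : ∀ c j, zz x c j = zz y c j) : x = y := by
  funext i
  rcases i with i | ⟨a, c⟩ | ⟨c, j⟩
  · exact congrFun h1 i
  · exact h2 a c
  · exact h3 c j

/-- the first column of the matrix of relations -/
noncomputable def wz (n : ℕ) (σ : Type) (m M : ℕ) :
    Fin (m + 1) → MvPolynomial (FV n σ (m + 1) (M + 1)) ℤ :=
  fun c => X (Sum.inr (Sum.inr (c, 0)))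

/-- the action of the general linear group -/
noncomputable def actF (m M : ℕ) : Act (FS L E (m + 1) (M + 1)) (wz n σ m M) where
  act := fun A _ g g' x => Sum.elim (bs x) (Sum.elim
    (fun p => ∑ c, vv x p.1 c * g' c p.2) (fun p => ∑ c, g p.1 c * zz x c p.2))
  nat := by
    intro A B _ _ φ g g' x i
    rcases i with i | i | i
    · rfl
    · show φ (∑ c, vv x i.1 c * g' c i.2) = _
      rw [map_sum]
      exact Finset.sum_congr rfl fun c _ => map_mul φ _ _
    · show φ (∑ c, g i.1 c * zz x c i.2) = _
      rw [map_sum]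
      exact Finset.sum_congr rfl fun c _ => map_mul φ _ _
  pres := by
    intro A _ g g' x h1 h2 hx
    rw [pt_fs] at hx ⊢
    obtain ⟨hb, hL, hz⟩ := hx
    refine ⟨hb, fun i c => ?_, fun a j => ?_⟩
    · show ∑ a, ev (bs x) (L i a) * (∑ c', vv x a c' * g' c' c) = 0
      simp only [Finset.mul_sum]
      rw [Finset.sum_comm]
      refine Finset.sum_eq_zero fun c' _ => ?_
      have h3 : ∑ a, ev (bs x) (L i a) * (vv x a c' * g' c' c) =
          (∑ a, ev (bs x) (L i a) * vv x a c') * g' c' c := by
        rw [Finset.sum_mul]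
        exact Finset.sum_congr rfl fun a _ => by ring
      rw [h3, hL i c', zero_mul]
    · show ∑ c, (∑ c', vv x a c' * g' c' c) * (∑ c'', g c c'' * zz x c'' j) = 0
      have h3 : ∀ c, (∑ c', vv x a c' * g' c' c) * (∑ c'', g c c'' * zz x c'' j) =
          ∑ c', ∑ c'', vv x a c' * (g' c' c * g c c'') * zz x c'' j := by
        intro c
        rw [Finset.sum_mul_sum]
        exact Finset.sum_congr rfl fun c' _ => Finset.sum_congr rfl fun c'' _ => by ring
      rw [Finset.sum_congr rfl fun c _ => h3 c, Finset.sum_comm]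
      have h4 : ∀ c', ∑ c, ∑ c'', vv x a c' * (g' c' c * g c c'') * zz x c'' j =
          vv x a c' * zz x c' j := by
        intro c'
        rw [Finset.sum_comm]
        have h5 : ∀ c'', ∑ c, vv x a c' * (g' c' c * g c c'') * zz x c'' j =
            vv x a c' * ((g' * g) c' c'') * zz x c'' j := by
          intro c''
          rw [Matrix.mul_apply, Finset.mul_sum, Finset.sum_mul]
        rw [Finset.sum_congr rfl fun c'' _ => h5 c'', h2]
        rw [Finset.sum_eq_single c']
        · rw [Matrix.one_apply_eq, mul_one]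
        · intro c'' _ hc
          rw [Matrix.one_apply_ne (Ne.symm hc), mul_zero, zero_mul]
        · intro h; exact absurd (Finset.mem_univ c') h
      rw [Finset.sum_congr rfl fun c' _ => h4 c']
      exact hz a j
  inv := by
    intro A _ g g' x h1 h2
    refine fv_ext rfl (fun a c => ?_) fun c j => ?_
    · show ∑ c', (∑ c'', vv x a c'' * g' c'' c') * g c' c = vv x a c
      have h3 : ∀ c', (∑ c'', vv x a c'' * g' c'' c') * g c' c =
          ∑ c'', vv x a c'' * (g' c'' c' * g c' c) := by
        intro c'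
        rw [Finset.sum_mul]
        exact Finset.sum_congr rfl fun c'' _ => by ring
      rw [Finset.sum_congr rfl fun c' _ => h3 c', Finset.sum_comm]
      have h4 : ∀ c'', ∑ c', vv x a c'' * (g' c'' c' * g c' c) = vv x a c'' * (g' * g) c'' c := by
        intro c''
        rw [Matrix.mul_apply, Finset.mul_sum]
      rw [Finset.sum_congr rfl fun c'' _ => h4 c'', h2, Finset.sum_eq_single c]
      · rw [Matrix.one_apply_eq, mul_one]
      · intro c'' _ hc
        rw [Matrix.one_apply_ne hc, mul_zero]
      · intro h; exact absurd (Finset.mem_univ c) h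
    · show ∑ c', g' c c' * (∑ c'', g c' c'' * zz x c'' j) = zz x c j
      have h3 : ∀ c', g' c c' * (∑ c'', g c' c'' * zz x c'' j) =
          ∑ c'', (g' c c' * g c' c'') * zz x c'' j := by
        intro c'
        rw [Finset.mul_sum]
        exact Finset.sum_congr rfl fun c'' _ => by ring
      rw [Finset.sum_congr rfl fun c' _ => h3 c', Finset.sum_comm]
      have h4 : ∀ c'', ∑ c', (g' c c' * g c' c'') * zz x c'' j = (g' * g) c c'' * zz x c'' j := by
        intro c''
        rw [Matrix.mul_apply, Finset.sum_mul]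
      rw [Finset.sum_congr rfl fun c'' _ => h4 c'', h2, Finset.sum_eq_single c]
      · rw [Matrix.one_apply_eq, one_mul]
      · intro c'' _ hc
        rw [Matrix.one_apply_ne (Ne.symm hc), zero_mul]
      · intro h; exact absurd (Finset.mem_univ c) h
  equiv := by
    intro A _ g g' x
    funext c
    show ev _ (X (Sum.inr (Sum.inr (c, 0)))) = ∑ c', g c c' * ev x (wz n σ m M c')
    rw [ev_X]
    show ∑ c', g c c' * zz x c' 0 = _
    refine Finset.sum_congr rfl fun c' _ => ?_
    unfold wz
    rw [ev_X]
    rfl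

end

end Pool.Agent.Helper81.RP
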