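import Pool.Agent.Helper81.RP.Fam

/-!
# The pieces of the family
-/

set_option autoImplicit false

open MvPolynomial
open Pool.Agent.Helper81.CP Pool.Agent.Helper45.RM

namespace Pool.Agent.Helper81.RP

variable {Q : ∀ (R : Type) [CommRing R], ℤ → Prop} (hQ : RingCP Q)

include hQ

/-- free variables -/
lemma qs_sum {σ : Type} [Finite σ] (E : Set (MvPolynomial σ ℤ)) (M : ℕ) : ∀ s : ℤ,
    (QS Q (rename (Sum.inl : σ → σ ⊕ Fin M) '' E) (s + M) ↔ QS Q E s) := by
  induction M with
  | zero =>
    intro s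
    rw [Nat.cast_zero, add_zero]
    refine hQ.qs_iso (fun A _ x i => x (Sum.inl i)) (fun A _ y => Sum.elim y fun i => i.elim0)
      ?_ ?_ ?_ ?_ ?_ ?_ s
    · intro A B _ _ φ x _ j; rfl
    · intro A B _ _ φ y _ i
      rcases i with i | i
      · rfl
      · exact i.elim0
    · intro A _ x hx
      simpa [Pt, ev_rename] using hx
    · intro A _ y hy
      simpa [Pt, ev_rename] using hy
    · intro A _ x hx
      funext i
      rcases i with i | i
      · rfl
      · exact i.elim0
    · intro A _ y hy; rfl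
  | succ M ih =>
    intro s
    have h1 := ih s
    rw [← h1, ← hQ.qs_line (rename (Sum.inl : σ → σ ⊕ Fin M) '' E) (s + M)]
    have h2 : s + ((M + 1 : ℕ) : ℤ) = s + M + 1 := by push_cast; ring
    rw [h2]
    have hl : ∀ (A : Type) [CommRing A] (y : Option (σ ⊕ Fin M) → A),
        Pt (lft (rename (Sum.inl : σ → σ ⊕ Fin M) '' E)) y ↔
          Pt E fun i => y (some (Sum.inl i)) := by
      intro A _ y
      rw [Pt.lft_iff]
      simp only [Pt, Set.forall_mem_image, ev_rename]
    have hr : ∀ (A : Type) [CommRing A] (y : σ ⊕ Fin (M + 1) → A),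
        Pt (rename (Sum.inl : σ → σ ⊕ Fin (M + 1)) '' E) y ↔ Pt E fun i => y (Sum.inl i) := by
      intro A _ y
      simp only [Pt, Set.forall_mem_image, ev_rename]
    refine hQ.qs_iso
      (fun A _ x => fun o => o.elim (x (Sum.inr 0)) (Sum.elim (fun i => x (Sum.inl i))
        (fun j => x (Sum.inr j.succ))))
      (fun A _ y => Sum.elim (fun i => y (some (Sum.inl i)))
        (fun j => Fin.cases (y none) (fun j => y (some (Sum.inr j))) j))
      ?_ ?_ ?_ ?_ ?_ ?_ (s + M + 1)
    · intro A B _ _ φ x _ o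
      rcases o with _ | i | i <;> rfl
    · intro A B _ _ φ y _ i
      rcases i with i | i
      · rfl
      · refine Fin.cases ?_ (fun j => ?_) i <;> rfl
    · intro A _ x hx
      rw [hr] at hx
      rw [hl]
      exact hx
    · intro A _ y hy
      rw [hl] at hy
      rw [hr]
      exact hy
    · intro A _ x hx
      funext i
      rcases i with i | i
      · rfl
      · refine Fin.cases ?_ (fun j => ?_) i <;> rfl
    · intro A _ y hy
      funext o
      rcases o with _ | i | i <;> rfl

section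
variable {n : ℕ} {σ I : Type} [Finite σ] (L : I → Fin n → MvPolynomial σ ℤ)
  (E : Set (MvPolynomial σ ℤ))

/-- no vectors -/
lemma qs_fs_zero (M : ℕ) (s : ℤ) : QS Q (FS L E 0 M) s ↔ QS Q (FS L E 0 0) s := by
  refine hQ.qs_iso
    (fun A _ x => Sum.elim (bs x) (Sum.elim (fun p => p.2.elim0) (fun p => p.1.elim0)))
    (fun A _ y => Sum.elim (bs y) (Sum.elim (fun p => p.2.elim0) (fun p => p.1.elim0)))
    ?_ ?_ ?_ ?_ ?_ ?_ s
  · intro A B _ _ φ x _ i
    rcases i with i | i | i
    · rfl
    · exact i.2.elim0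
    · exact i.1.elim0
  · intro A B _ _ φ x _ i
    rcases i with i | i | i
    · rfl
    · exact i.2.elim0
    · exact i.1.elim0
  · intro A _ x hx
    rw [pt_fs] at hx ⊢
    exact ⟨hx.1, fun i c => c.elim0, fun a j => j.elim0⟩
  · intro A _ x hx
    rw [pt_fs] at hx ⊢
    exact ⟨hx.1, fun i c => c.elim0, fun a j => by simp⟩
  · intro A _ x hx
    exact fv_ext rfl (fun a c => c.elim0) (fun c => c.elim0)
  · intro A _ x hx
    exact fv_ext rfl (fun a c => c.elim0) (fun c => c.elim0)

/-- the first column of relations is zero -/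
lemma qs_fs_fw (m M : ℕ) (s : ℤ) :
    QS Q (FW (FS L E (m + 1) (M + 1)) (wz n σ m M) (m + 1)) s ↔ QS Q (FS L E (m + 1) M) s := by
  have hw : ∀ (A : Type) [CommRing A] (x : FV n σ (m + 1) (M + 1) → A),
      Pt (FW (FS L E (m + 1) (M + 1)) (wz n σ m M) (m + 1)) x ↔
        Pt (FS L E (m + 1) (M + 1)) x ∧ ∀ c, zz x c 0 = 0 := by
    intro A _ x
    rw [pt_fw]
    unfold wz
    simp only [ev_X, Fin.is_lt, true_implies]
    rfl
  refine hQ.qs_iso
    (fun A _ x => Sum.elim (bs x) (Sum.elim (fun p => vv x p.1 p.2) (fun p => zz x p.1 p.2.succ)))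
    (fun A _ y => Sum.elim (bs y) (Sum.elim (fun p => vv y p.1 p.2)
      (fun p => Fin.cases (motive := fun _ => A) 0 (fun j => zz y p.1 j) p.2)))
    ?_ ?_ ?_ ?_ ?_ ?_ s
  · intro A B _ _ φ x _ i
    rcases i with i | i | i <;> rfl
  · intro A B _ _ φ y _ i
    rcases i with i | i | ⟨c, j⟩
    · rfl
    · rfl
    · refine Fin.cases ?_ (fun j => ?_) j
      · exact map_zero φ
      · rfl
  · intro A _ x hx
    rw [hw, pt_fs] at hx
    rw [pt_fs]
    exact ⟨hx.1.1, hx.1.2.1, fun a j => hx.1.2.2 a j.succ⟩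
  · intro A _ y hy
    rw [pt_fs] at hy
    rw [hw, pt_fs]
    refine ⟨⟨hy.1, hy.2.1, fun a j => ?_⟩, fun c => rfl⟩
    refine Fin.cases ?_ (fun j => ?_) j
    · exact Finset.sum_eq_zero fun c _ => mul_zero _
    · exact hy.2.2 a j
  · intro A _ x hx
    rw [hw] at hx
    refine fv_ext rfl (fun a c => rfl) (fun c j => ?_)
    refine Fin.cases ?_ (fun j => ?_) j
    · exact (hx.2 c).symm
    · rfl
  · intro A _ y hy
    exact fv_ext rfl (fun a c => rfl) (fun c j => rfl)

/-- the first column of relations is the first unit vector -/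
lemma qs_fs_uw (m M : ℕ) (s : ℤ) :
    QS Q (UW (FS L E (m + 1) (M + 1)) (wz n σ m M)) (s + M) ↔ QS Q (FS L E m M) s := by
  rw [← qs_sum hQ (FS L E m M) M s]
  have hw : ∀ (A : Type) [CommRing A] (x : FV n σ (m + 1) (M + 1) → A),
      Pt (UW (FS L E (m + 1) (M + 1)) (wz n σ m M)) x ↔
        Pt (FS L E (m + 1) (M + 1)) x ∧ ∀ c, zz x c 0 = e0 m A c := by
    intro A _ x
    rw [pt_uw, funext_iff]
    unfold wz
    simp only [ev_X]
    rfl
  have hr : ∀ (A : Type) [CommRing A] (y : FV n σ m M ⊕ Fin M → A),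
      Pt (rename (Sum.inl : FV n σ m M → FV n σ m M ⊕ Fin M) '' FS L E m M) y ↔
        Pt (FS L E m M) fun i => y (Sum.inl i) := by
    intro A _ y
    simp only [Pt, Set.forall_mem_image, ev_rename]
  refine hQ.qs_iso
    (fun A _ x => Sum.elim (Sum.elim (bs x) (Sum.elim (fun p => vv x p.1 p.2.succ)
      (fun p => zz x p.1.succ p.2.succ))) (fun j => zz x 0 j.succ))
    (fun A _ y => Sum.elim (bs fun i => y (Sum.inl i)) (Sum.elim
      (fun p => Fin.cases (motive := fun _ => A) 0 (fun c => vv (fun i => y (Sum.inl i)) p.1 c) p.2)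
      (fun p => Fin.cases (motive := fun _ => A) (e0 m A p.1)
        (fun j => Fin.cases (motive := fun _ => A) (y (Sum.inr j))
          (fun c => zz (fun i => y (Sum.inl i)) c j) p.1) p.2)))
    ?_ ?_ ?_ ?_ ?_ ?_ (s + M)
  · intro A B _ _ φ x _ i
    rcases i with (i | i | i) | i <;> rfl
  · intro A B _ _ φ y _ i
    rcases i with i | ⟨a, c⟩ | ⟨c, j⟩
    · rfl
    · refine Fin.cases ?_ (fun c => ?_) c
      · exact map_zero φ
      · rfl
    · refine Fin.cases ?_ (fun j => ?_) j
      · exact map_e0 φ c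
      · refine Fin.cases ?_ (fun c => ?_) c <;> rfl
  · intro A _ x hx
    rw [hw, pt_fs] at hx
    obtain ⟨⟨hb, hL, hz⟩, he⟩ := hx
    have hv : ∀ a, vv x a 0 = 0 := by
      intro a
      have h1 := hz a 0
      rw [Finset.sum_eq_single 0] at h1
      · rw [he 0] at h1
        simpa [e0] using h1
      · intro c _ hc
        rw [he c]
        simp [e0, hc]
      · intro h; exact absurd (Finset.mem_univ _) h
    rw [hr, pt_fs]
    refine ⟨hb, fun i c => hL i c.succ, fun a j => ?_⟩
    have h1 := hz a j.succ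
    rw [Fin.sum_univ_succ, hv a, zero_mul, zero_add] at h1
    exact h1
  · intro A _ y hy
    rw [hr, pt_fs] at hy
    obtain ⟨hb, hL, hz⟩ := hy
    rw [hw, pt_fs]
    refine ⟨⟨hb, fun i c => ?_, fun a j => ?_⟩, fun c => rfl⟩
    · refine Fin.cases ?_ (fun c => ?_) c
      · exact Finset.sum_eq_zero fun a _ => mul_zero _
      · exact hL i c
    · refine Fin.cases ?_ (fun j => ?_) j
      · show ∑ c, Fin.cases (motive := fun _ => A) 0
          (fun c => vv (fun i => y (Sum.inl i)) a c) c * e0 m A c = 0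
        rw [Fin.sum_univ_succ]
        simp [e0]
      · show ∑ c, Fin.cases (motive := fun _ => A) 0
          (fun c => vv (fun i => y (Sum.inl i)) a c) c * Fin.cases (motive := fun _ => A)
            (y (Sum.inr j)) (fun c => zz (fun i => y (Sum.inl i)) c j) c = 0
        rw [Fin.sum_univ_succ]
        simp only [Fin.cases_zero, Fin.cases_succ, zero_mul, zero_add]
        exact hz a j
  · intro A _ x hx
    rw [hw, pt_fs] at hx
    obtain ⟨⟨hb, hL, hz⟩, he⟩ := hx
    have hv : ∀ a, vv x a 0 = 0 := by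
      intro a
      have h1 := hz a 0
      rw [Finset.sum_eq_single 0] at h1
      · rw [he 0] at h1
        simpa [e0] using h1
      · intro c _ hc
        rw [he c]
        simp [e0, hc]
      · intro h; exact absurd (Finset.mem_univ _) h
    refine fv_ext rfl (fun a c => ?_) (fun c j => ?_)
    · refine Fin.cases ?_ (fun c => ?_) c
      · exact (hv a).symm
      · rfl
    · refine Fin.cases ?_ (fun j => ?_) j
      · exact (he c).symm
      · refine Fin.cases ?_ (fun c => ?_) c <;> rfl
  · intro A _ y hy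
    funext i
    rcases i with (i | i | i) | i <;> rfl

end

end Pool.Agent.Helper81.RP
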