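import Pool.Agent.Helper81.RP.Fam2

/-!
# Removing the relations
-/

set_option autoImplicit false

open MvPolynomial
open Pool.Agent.Helper81.CP Pool.Agent.Helper45.RM

namespace Pool.Agent.Helper81.RP

variable {Q : ∀ (R : Type) [CommRing R], ℤ → Prop} (hQ : RingCP Q)
  {n : ℕ} {σ I : Type} [Finite σ] (L : I → Fin n → MvPolynomial σ ℤ)
  (E : Set (MvPolynomial σ ℤ))

include hQ

/-- the upper weights -/
theorem fs_low {K : ℕ} {T : ℕ → ℤ} (hT : ∀ j ≤ K, ∀ s, T j ≤ s → QS Q (FS L E j 0) s) (M : ℕ) :
    ∀ k ≤ K, ∀ s : ℤ, (∀ i : ℕ, i ≤ k → i ≤ M → T (k - i) + i * (k + M - i) ≤ s) →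
      QS Q (FS L E k M) s := by
  induction M with
  | zero =>
    intro k hk s h
    have h1 := h 0 (Nat.zero_le _) le_rfl
    rw [Nat.sub_zero, Nat.cast_zero, zero_mul, add_zero] at h1
    exact hT k hk s h1
  | succ M ih =>
    intro k hk s h
    rcases k with _ | m
    · rw [qs_fs_zero hQ]
      have h1 := h 0 (Nat.zero_le _) (Nat.zero_le _)
      rw [Nat.sub_zero, Nat.cast_zero, zero_mul, add_zero] at h1
      exact hT 0 hk s h1
    · refine qs_whole hQ (wz n σ m M) (actF L E m M) (fun s' hs' => ?_) ?_
      · have h2 : QS Q (FS L E m M) (s' - M) := by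
          refine ih m (by omega) _ fun i hi hi' => ?_
          have h1 := h (i + 1) (by omega) (by omega)
          rw [Nat.add_sub_add_right] at h1
          push_cast at h1
          nlinarith [h1, hs']
        have h3 := (qs_fs_uw hQ L E m M (s' - M)).2 h2
        rwa [sub_add_cancel] at h3
      · rw [qs_fs_fw hQ]
        refine ih (m + 1) hk s fun i hi hi' => ?_
        have h1 := h i hi (by omega)
        push_cast at h1 ⊢
        have h4 : (0 : ℤ) ≤ (i : ℕ) := by positivity
        nlinarith [h1, h4]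

/-- the leading weight -/
theorem fs_lead {K : ℕ} {T : ℕ → ℤ} (hT : ∀ j ≤ K, ∀ s, T j ≤ s → QS Q (FS L E j 0) s) {j : ℕ}
    {t : ℤ} (ht : T j = t + 1) (M : ℕ) :
    ∀ i : ℕ, i ≤ M → j + i ≤ K →
      (∀ i' : ℕ, i' ≤ j + i → i' ≤ M → i' ≠ i →
        T (j + i - i') + i' * (j + i + M - i') ≤ t + i * (j + M)) →
      QS Q (FS L E (j + i) M) (t + i * (j + M)) → QS Q (FS L E j 0) t := by
  induction M with
  | zero =>
    intro i hi _ _ h
    rw [Nat.le_zero.1 hi] at h
    simpa using h
  | succ M ih =>
    intro i hi hK hc h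
    rcases i with _ | i
    · simp only [Nat.cast_zero, zero_mul, add_zero] at hc h
      rcases j with _ | m
      · rwa [qs_fs_zero hQ] at h
      · refine ih 0 (Nat.zero_le _) hK (fun i' h1 h2 h3 => ?_) ?_
        · have h4 := hc i' h1 (by omega) h3
          simp only [Nat.add_zero, Nat.cast_zero, zero_mul, add_zero]
          push_cast at h4 ⊢
          have h5 : (0 : ℤ) ≤ (i' : ℕ) := by positivity
          nlinarith [h4, h5]
        · simp only [Nat.add_zero, Nat.cast_zero, zero_mul, add_zero]
          rw [← qs_fs_fw hQ]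
          refine qs_zero hQ (wz n σ m M) (actF L E m M) (fun s' hs' => ?_) h
          have h2 : QS Q (FS L E m M) (s' - M) := by
            refine fs_low hQ L E hT M m (by omega) _ fun i' hi' hi'' => ?_
            have h1 := hc (i' + 1) (by omega) (by omega) (by omega)
            rw [Nat.add_sub_add_right] at h1
            push_cast at h1
            nlinarith [h1, hs']
          have h3 := (qs_fs_uw hQ L E m M (s' - M)).2 h2
          rwa [sub_add_cancel] at h3
    · have hj : j + (i + 1) = (j + i) + 1 := by omega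
      refine ih i (by omega) (by omega) (fun i' h1 h2 h3 => ?_) ?_
      · have h4 := hc (i' + 1) (by omega) (by omega) (by omega)
        rw [hj, Nat.add_sub_add_right] at h4
        push_cast at h4 ⊢
        nlinarith [h4]
      · rw [← qs_fs_uw hQ]
        rw [hj] at h
        have hs : (t + (i : ℕ) * (j + M) + M : ℤ) =
            t + ((i + 1 : ℕ) : ℤ) * (j + ((M + 1 : ℕ) : ℤ)) - ((j + i : ℕ) + 1) := by
          push_cast
          ring
        rw [hs]
        refine qs_unit hQ (wz n σ (j + i) M) (actF L E (j + i) M) (fun s' hs' => ?_) ?_ h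
        · have h2 : QS Q (FS L E (j + i) M) (s' - M) := by
            refine fs_low hQ L E hT M (j + i) (by omega) _ fun i' hi' hi'' => ?_
            by_cases he : i' = i
            · rw [he, Nat.add_sub_cancel, ht]
              push_cast at hs' ⊢
              have := Int.add_one_le_iff.mpr hs'
              nlinarith [this]
            · have h1 := hc (i' + 1) (by omega) (by omega) (by omega)
              rw [hj, Nat.add_sub_add_right] at h1
              push_cast at h1 hs' ⊢
              nlinarith [h1, hs']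
          have h3 := (qs_fs_uw hQ L E (j + i) M (s' - M)).2 h2
          rwa [sub_add_cancel] at h3
        · rw [qs_fs_fw hQ]
          refine fs_low hQ L E hT M (j + i + 1) (by omega) _ fun i' hi' hi'' => ?_
          by_cases he : i' = i + 1
          · rw [he, Nat.add_sub_add_right, Nat.add_sub_cancel, ht]
            push_cast
            have h5 : (0 : ℤ) ≤ (i : ℕ) := by positivity
            nlinarith [h5]
          · have h1 := hc i' (by omega) (by omega) he
            rw [hj] at h1
            push_cast at h1 ⊢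
            have h5 : (0 : ℤ) ≤ (i' : ℕ) := by positivity
            nlinarith [h1, h5]

omit hQ [Finite σ] in
/-- thresholds -/
def thr (n c j : ℕ) : ℤ := j * (1 + 2 * c * n) - c * j * (j + 1) + j ^ 2 - n * j

omit hQ [Finite σ] in
lemma thr_ineq {n c J i i' : ℕ} (hc : 1 ≤ c) (hn : J + i = n) (hi' : i' ≤ n) (hne : i' ≠ i) :
    thr n c (n - i') - (if n - i' < J then 1 else 0) + i' * (n + (2 * c * i : ℕ) - i') + 1 ≤
      thr n c J + i * (J + (2 * c * i : ℕ)) := by
  obtain ⟨j', hj'⟩ : ∃ j', i' + j' = n := ⟨n - i', by omega⟩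
  have h1 : n - i' = j' := by omega
  rw [h1]
  have hi : (i : ℤ) = n - J := by have := hn; push_cast [← this]; ring
  have hi'' : (i' : ℤ) = n - j' := by have := hj'; push_cast [← this]; ring
  have key : thr n c J + i * (J + (2 * c * i : ℕ)) -
      (thr n c j' + i' * (n + (2 * c * i : ℕ) - i')) = (J - j') * (c * (J - j') + 1 - c) := by
    unfold thr
    push_cast
    rw [hi, hi'']
    ring
  have hc' : (1 : ℤ) ≤ c := by exact_mod_cast hc
  split_ifs with h
  · obtain ⟨d, hd⟩ : ∃ d : ℕ, j' + 1 + d = J := ⟨J - j' - 1, by omega⟩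
    have hd' : (J : ℤ) - j' = 1 + d := by have := hd; push_cast [← this]; ring
    rw [hd'] at key
    have h2 : (0 : ℤ) ≤ (1 + d) * (c * (1 + d) + 1 - c) := by
      have : (c : ℤ) * (1 + d) + 1 - c = c * d + 1 := by ring
      rw [this]
      positivity
    linarith
  · obtain ⟨d, hd⟩ : ∃ d : ℕ, J + 1 + d = j' := ⟨j' - J - 1, by omega⟩
    have hd' : (J : ℤ) - j' = -(1 + d) := by have := hd; push_cast [← this]; ring
    rw [hd'] at key
    obtain ⟨c', hc''⟩ : ∃ c' : ℕ, c' + 1 = c := ⟨c - 1, by omega⟩
    have hcc : (c : ℤ) = c' + 1 := by have := hc''; push_cast [← this]; ring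
    have h2 : (1 : ℤ) ≤ (-(1 + d)) * (c * (-(1 + d)) + 1 - c) := by
      have : (-(1 + (d : ℤ))) * (c * (-(1 + d)) + 1 - c) =
          1 + (2 * d + d ^ 2 + c' * (1 + d) ^ 2 + c' * (1 + d)) := by
        rw [hcc]
        ring
      rw [this]
      have : (0 : ℤ) ≤ 2 * d + d ^ 2 + c' * (1 + d) ^ 2 + c' * (1 + d) := by positivity
      linarith
    linarith

/-- one step -/
lemma step (c : ℕ) (hc : 1 ≤ c) (h : ∀ i ≤ n, Good Q (FS L E n (2 * c * i))) (B : ℤ) (r J : ℕ)
    (ih : J ≤ n + 1 → ∀ j ≤ n, ∀ s : ℤ, B + thr n c j - r - (if j < J then 1 else 0) ≤ s →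
      QS Q (FS L E j 0) s) (hJ : J + 1 ≤ n + 1) :
    ∀ j ≤ n, ∀ s : ℤ, B + thr n c j - r - (if j < J + 1 then 1 else 0) ≤ s →
      QS Q (FS L E j 0) s := by
  intro j hj s hs
  by_cases hjJ : j = J
  · rw [if_pos (by omega)] at hs
    by_cases hs' : B + thr n c j - r ≤ s
    · refine ih (by omega) j hj s ?_
      rw [if_neg (by omega)]
      linarith
    · have hs'' : s = B + thr n c j - r - 1 := by omega
      obtain ⟨i, hi⟩ : ∃ i, J + i = n := ⟨n - J, by omega⟩
      have hM : i ≤ 2 * c * i := by nlinarith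
      have hji : j + i = n := by omega
      refine fs_lead hQ L E (K := n)
        (T := fun j => B + thr n c j - r - (if j < J then 1 else 0)) (ih (by omega)) (j := j)
        (t := s) ?_ (2 * c * i) i hM (le_of_eq hji) (fun i' h1 h2 h3 => ?_) ?_
      · rw [if_neg (by omega), hs'']
        ring
      · have h4 := thr_ineq hc hi (h1.trans (le_of_eq hji)) h3
        have h5 : ((j : ℕ) : ℤ) + (i : ℕ) = (n : ℕ) := by exact_mod_cast hji
        show B + thr n c (j + i - i') - r - (if j + i - i' < J then 1 else 0) +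
          (i' : ℤ) * ((j : ℤ) + i + (2 * c * i : ℕ) - i') ≤ s + i * (j + (2 * c * i : ℕ))
        rw [h5, hji, hs'', hjJ]
        linarith
      · rw [hji]
        exact h i (by omega) _
  · refine ih (by omega) j hj s ?_
    by_cases h1 : j < J
    · rw [if_pos h1]
      rwa [if_pos (by omega)] at hs
    · rw [if_neg h1]
      rwa [if_neg (by omega)] at hs

/-- **Removing the relations.** -/
theorem good_columns (c : ℕ) (hc : 1 ≤ c) (h : ∀ i ≤ n, Good Q (FS L E n (2 * c * i))) :
    ∀ j ≤ n, Good Q (FS L E j 0) := by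
  choose s₀ hs₀ using fun j => hQ.bdd _ (ft_rng (FS L E j 0))
  obtain ⟨B, hB⟩ : ∃ B : ℤ, ∀ j ≤ n, s₀ j ≤ B + thr n c j := by
    refine ⟨∑ j ∈ Finset.range (n + 1), |s₀ j - thr n c j|, fun j hj => ?_⟩
    have h1 := Finset.single_le_sum (f := fun j => |s₀ j - thr n c j|)
      (fun i _ => abs_nonneg _) (Finset.mem_range.2 (Nat.lt_succ_of_le hj))
    have h2 := le_abs_self (s₀ j - thr n c j)
    linarith
  have key : ∀ r : ℕ, ∀ J ≤ n + 1, ∀ j ≤ n, ∀ s : ℤ,
      B + thr n c j - r - (if j < J then 1 else 0) ≤ s → QS Q (FS L E j 0) s := by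
    intro r
    induction r with
    | zero =>
      intro J
      induction J with
      | zero =>
        intro _ j hj s hs
        rw [if_neg (Nat.not_lt_zero _)] at hs
        exact hs₀ j s (by have := hB j hj; push_cast at hs; linarith)
      | succ J ihJ => exact step hQ L E c hc h B 0 J ihJ
    | succ r ihr =>
      intro J
      induction J with
      | zero =>
        intro _ j hj s hs
        rw [if_neg (Nat.not_lt_zero _)] at hs
        refine ihr (n + 1) le_rfl j hj s ?_
        rw [if_pos (by omega)]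
        push_cast at hs
        linarith
      | succ J ihJ => exact step hQ L E c hc h B (r + 1) J ihJ
  intro j hj s
  refine key (B + thr n c j - s).toNat 0 (Nat.zero_le _) j hj s ?_
  rw [if_neg (Nat.not_lt_zero _)]
  have := Int.self_le_toNat (B + thr n c j - s)
  linarith

end Pool.Agent.Helper81.RP
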