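import Pool.Agent.Helper81.RP.Two

/-!
# Representations of dimension at most two of quadratic monomial algebras
-/

set_option autoImplicit false

open MvPolynomial
open Pool.Agent.Helper81.CP Pool.Agent.Helper81.HG Pool.Agent.Helper45.RM

namespace Pool.Agent.Helper81.RP

section
variable {V : Type} [Finite V] {G : ∀ (R : Type) [CommRing R], Prop} (hG : RG G)
  (h0 : GS G (∅ : Set (MvPolynomial Empty ℤ)))

omit [Finite V] in
lemma pt_mon1 {D : Set (V × V)} {R : Type} [CommRing R] {x : V × (Fin 1 × Fin 1) → R} :
    Pt (monS 1 D) x ↔ ∀ v w, (v, w) ∈ D → x (v, (0, 0)) * x (w, (0, 0)) = 0 := by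
  rw [pt_mon]
  constructor
  · intro h v w hvw
    have h1 := h (v, w) hvw 0 0
    rwa [Fin.sum_univ_one] at h1
  · intro h e he i j
    rw [Fin.sum_univ_one, Subsingleton.elim i 0, Subsingleton.elim j 0]
    exact h e.1 e.2 he

include hG h0

/-- dimension zero -/
lemma gs_mon_zero (D : Set (V × V)) : GS G (monS 0 D) := by
  refine (hG.gs_congr fun R _ x => ?_).1 (gs_affine_of_base hG h0 (V × (Fin 0 × Fin 0)))
  rw [pt_mon]
  constructor
  · intro _ e _ i
    exact i.elim0
  · intro _ p hp
    exact absurd hp (Set.notMem_empty p)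

/-- dimension one -/
theorem gs_mon_one (D : Set (V × V)) : GS G (monS 1 D) := by
  classical
  have := Fintype.ofFinite V
  have key : ∀ (u : Finset V) (t : V → Bool) (E : Set (MvPolynomial (V × (Fin 1 × Fin 1)) ℤ))
      (p : MvPolynomial (V × (Fin 1 × Fin 1)) ℤ),
      (∀ (A : Type) [CommRing A] (x : V × (Fin 1 × Fin 1) → A), Lc E p x ↔
        Pt (monS 1 D) x ∧ ∀ v, v ∉ u → (t v = true → IsUnit (x (v, (0, 0)))) ∧
          (t v = false → x (v, (0, 0)) = 0)) → GO G E p := by
    intro u
    induction u using Finset.induction_on with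
    | empty =>
      intro t E p h
      by_cases hD : ∃ v w, (v, w) ∈ D ∧ t v = true ∧ t w = true
      · obtain ⟨v, w, hvw, hv, hw⟩ := hD
        refine hG.triv _ (subsingleton_rng fun A _ x hx => ?_)
        rw [Pt.dop_iff_lc, h] at hx
        have h1 := pt_mon1.1 hx.1.1 v w hvw
        have h2 := ((hx.1.2 v (Finset.notMem_empty v)).1 hv).mul
          ((hx.1.2 w (Finset.notMem_empty w)).1 hw)
        rw [h1] at h2
        exact (isUnit_zero_iff.1 h2).symm
      push Not at hD
      refine (hG.gl_congr fun A _ x => ?_).1 (go_coord hG h0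
        ((Finset.univ.filter fun v : V => t v = true).image fun v => (v, ((0 : Fin 1), (0 : Fin 1))))
        {q : V × (Fin 1 × Fin 1) | t q.1 = false})
      rw [h]
      unfold Lc
      rw [lc_unit]
      unfold Pt
      simp only [Set.forall_mem_image, ev_X, Finset.forall_mem_image, Finset.mem_filter,
        Finset.mem_univ, true_and]
      constructor
      · rintro ⟨h1, h2⟩
        have h3 : ∀ v, t v = false → x (v, (0, 0)) = 0 := fun v hv => h1 hv
        refine ⟨?_, fun v _ => ⟨fun hv => h2 hv, fun hv => h3 v hv⟩⟩
        refine pt_mon1.2 fun v w hvw => ?_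
        rcases Bool.eq_false_or_eq_true (t v) with hv | hv
        · rcases Bool.eq_false_or_eq_true (t w) with hw | hw
          · exact absurd hw (hD v w hvw hv)
          · rw [h3 w hw, mul_zero]
        · rw [h3 v hv, zero_mul]
      · rintro ⟨h1, h2⟩
        refine ⟨?_, fun v hv => (h2 v (Finset.notMem_empty v)).1 hv⟩
        rintro ⟨v, i, j⟩ hv
        rw [Subsingleton.elim i 0, Subsingleton.elim j 0]
        exact (h2 v (Finset.notMem_empty v)).2 hv
    | insert a u ha ih =>
      intro t E p h
      have hk : ∀ (k : Bool) (A : Type) [CommRing A] (x : V × (Fin 1 × Fin 1) → A),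
          (Lc E p x ∧ (k = true → IsUnit (x (a, (0, 0)))) ∧ (k = false → x (a, (0, 0)) = 0)) ↔
          (Pt (monS 1 D) x ∧ ∀ v, v ∉ u →
            (Function.update t a k v = true → IsUnit (x (v, (0, 0)))) ∧
          (Function.update t a k v = false → x (v, (0, 0)) = 0)) := by
        intro k A _ x
        rw [h A x]
        constructor
        · rintro ⟨⟨h1, h2⟩, h3⟩
          refine ⟨h1, fun v hv => ?_⟩
          by_cases hva : v = a
          · subst hva
            rw [Function.update_self]
            exact h3
          · rw [Function.update_of_ne hva]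
            exact h2 v (by simp [hva, hv])
        · rintro ⟨h1, h2⟩
          refine ⟨⟨h1, fun v hv => ?_⟩, ?_⟩
          · rw [Finset.mem_insert, not_or] at hv
            have h3 := h2 v hv.2
            rwa [Function.update_of_ne hv.1] at h3
          · have h3 := h2 a ha
            rwa [Function.update_self] at h3
      refine hG.gl_glue (X (a, (0, 0))) ?_ ?_
      · refine ih (Function.update t a false) _ _ fun A _ x => ?_
        rw [← hk false A x]
        unfold Lc
        rw [Pt.insert_iff, ev_X]
        simp
        tauto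
      · refine ih (Function.update t a true) _ _ fun A _ x => ?_
        rw [← hk true A x]
        unfold Lc
        rw [map_mul, ev_X, IsUnit.mul_iff]
        simp
        tauto
  have h1 := key Finset.univ (fun _ => true) (monS 1 D) 1 fun A _ x => by simp [Lc]
  rwa [hG.gl_one] at h1

/-- **Representations of dimension at most two.** -/
theorem gs_mon_le_two {n : ℕ} (hn : n ≤ 2) (D : Set (V × V)) : GS G (monS n D) := by
  have h : n = 0 ∨ n = 1 ∨ n = 2 := by omega
  rcases h with rfl | rfl | rfl
  · exact gs_mon_zero hG h0 D
  · exact gs_mon_one hG h0 D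
  · exact gs_mon_two hG h0 D

end

end Pool.Agent.Helper81.RP
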