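import Pool.Agent.Helper81.RP.Defs
import Pool.Agent.Helper81.RP.One
import Pool.Agent.Helper45.RM.Main

/-!
# The dichotomy for quadratic monomial algebras
-/

set_option autoImplicit false

open AlgebraicGeometry CategoryTheory TopologicalSpace MvPolynomial
open Pool.Agent.Helper81.CP Pool.Agent.Helper81.HG Pool.Agent.Helper45.RM

namespace Pool.Agent.Helper81.RP

universe u

lemma isFT_mono {N n : ℕ} : ∀ X ∈ MonomialReps N n, IsFT X := by
  rintro _ ⟨V, hV, E, rfl⟩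
  exact isFT_zero _ _

lemma mhyp_of_cc {G : Scheme.{0} → Prop} (hG : SG G) {N n : ℕ} (h : CC G (LayeredReps N n)) :
    MHyp (md (rg G) N) n := by
  intro V _ E l hl
  exact (gz hG _).2 (h _ ⟨V, inferInstance, E, l, hl, rfl⟩)

theorem main (N : ℕ) :
    (∀ n, 3 ≤ n → Controls.{u} (LayeredReps N n) (FiniteType N)) ∧
    (∀ n, n ≤ 2 → Controls.{u} {Spec (CommRingCat.of (ZMod N))} (MonomialReps N n)) := by
  refine ⟨fun n hn => ?_, fun n hn => ?_⟩
  · obtain ⟨m, rfl⟩ : ∃ m, n = m + 1 := ⟨n - 1, by omega⟩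
    refine controls_of_ctl isFT_finiteType (cc_all_of_ohyp (sg_ctl _) (sem_ctl _) hn ?_)
    exact ohyp_of_mhyp ((sg_ctl _).rg.mod N) (SemF.mod (sg_ctl _).rg (semF_ctl _) N)
      (mhyp_of_cc (sg_ctl _) (cc_self _))
  · refine controls_of_ctl isFT_mono ?_
    rintro _ ⟨V, hV, E, rfl⟩
    exact (gz (sg_ctl _) _).1 (gs_mon_le_two ((sg_ctl _).rg.mod N)
      (gs_base (sg_ctl _) N (cc_self _ _ (Set.mem_singleton _))) hn E)

end Pool.Agent.Helper81.RP
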