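import Pool.Agent.Helper81.RP.Pha

/-!
# Representations of quadratic monomial algebras and orthogonality relations
-/

set_option autoImplicit false

open MvPolynomial
open Pool.Agent.Helper81.CP Pool.Agent.Helper81.HG Pool.Agent.Helper45.RM

namespace Pool.Agent.Helper81.RP

/-- tuples of `n × n` matrices `x_v` with `x_v x_w = 0` for `(v, w) ∈ E` -/
noncomputable def monS (n : ℕ) {V : Type} (E : Set (V × V)) :
    Set (MvPolynomial (V × (Fin n × Fin n)) ℤ) :=
  {f | ∃ e ∈ E, ∃ i j, f = ∑ k, X (e.1, (i, k)) * X (e.2, (k, j))}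

lemma pt_mon {n : ℕ} {V : Type} {E : Set (V × V)} {R : Type} [CommRing R]
    {x : V × (Fin n × Fin n) → R} : Pt (monS n E) x ↔
      ∀ e ∈ E, ∀ i j, ∑ k, x (e.1, (i, k)) * x (e.2, (k, j)) = 0 := by
  have h : ∀ e : V × V, ∀ i j, ev x (∑ k, X (e.1, (i, k)) * X (e.2, (k, j))) =
      ∑ k, x (e.1, (i, k)) * x (e.2, (k, j)) := by
    intro e i j
    simp only [map_sum, map_mul, ev_X]
  constructor
  · intro hx e he i j
    rw [← h]
    exact hx _ ⟨e, he, i, j, rfl⟩
  · rintro hx _ ⟨e, he, i, j, rfl⟩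
    rw [h]
    exact hx e he i j

/-- the classes which contain the representations of all quadratic monomial algebras with four
layers -/
def MHyp (G : ∀ (R : Type) [CommRing R], Prop) (n : ℕ) : Prop :=
  ∀ (V : Type) [Finite V] (E : Set (V × V)) (h : V → Fin 4),
    (∀ e ∈ E, (h e.1 : ℕ) = h e.2 + 1) → GS G (monS n E)

section
variable {n : ℕ} {A B Y W : Type} (E : Set (A × B)) (π : Y → A) (ρ : W → B)

/-- the quiver for the orthogonality relations -/
def dgr : Set (((A ⊕ B) ⊕ (Y ⊕ W)) × ((A ⊕ B) ⊕ (Y ⊕ W))) :=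
  (fun e : A × B => (Sum.inl (Sum.inr e.2), Sum.inl (Sum.inl e.1))) '' E ∪
    (Set.range fun y : Y => (Sum.inl (Sum.inl (π y)), Sum.inr (Sum.inl y))) ∪
    (Set.range fun w : W => (Sum.inr (Sum.inr w), Sum.inl (Sum.inr (ρ w))))

lemma pt_dgr {R : Type} [CommRing R] {x : ((A ⊕ B) ⊕ (Y ⊕ W)) × (Fin n × Fin n) → R} :
    Pt (monS n (dgr E π ρ)) x ↔
      ((∀ e ∈ E, ∀ i j, ∑ k, x (Sum.inl (Sum.inr e.2), (i, k)) *
        x (Sum.inl (Sum.inl e.1), (k, j)) = 0) ∧
      (∀ y, ∀ i j, ∑ k, x (Sum.inl (Sum.inl (π y)), (i, k)) *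
        x (Sum.inr (Sum.inl y), (k, j)) = 0)) ∧
      (∀ w, ∀ i j, ∑ k, x (Sum.inr (Sum.inr w), (i, k)) *
        x (Sum.inl (Sum.inr (ρ w)), (k, j)) = 0) := by
  rw [pt_mon]
  unfold dgr
  simp only [Set.mem_union, or_imp, forall_and, Set.forall_mem_image, Set.forall_mem_range]

/-- the layers -/
def lay (A B Y W : Type) : (A ⊕ B) ⊕ (Y ⊕ W) → Fin 4 :=
  Sum.elim (Sum.elim (fun _ => 1) fun _ => 2) (Sum.elim (fun _ => 0) fun _ => 3)

lemma lay_dgr : ∀ e ∈ dgr E π ρ, (lay A B Y W e.1 : ℕ) = lay A B Y W e.2 + 1 := by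
  unfold dgr
  simp only [Set.mem_union, or_imp, forall_and, Set.forall_mem_image, Set.forall_mem_range]
  exact ⟨⟨fun e _ => rfl, fun y => rfl⟩, fun w => rfl⟩

/-- the base of the first phase -/
noncomputable def eB : Set (MvPolynomial ((B × (Fin n × Fin n)) ⊕ (W × (Fin n × Fin n))) ℤ) :=
  Set.range fun p : W × Fin n × Fin n =>
    ∑ k, X (Sum.inr (p.1, (p.2.1, k))) * X (Sum.inl (ρ p.1, (k, p.2.2)))

lemma pt_eB {R : Type} [CommRing R]
    {x : (B × (Fin n × Fin n)) ⊕ (W × (Fin n × Fin n)) → R} : Pt (eB ρ) x ↔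
      ∀ w i j, ∑ k, x (Sum.inr (w, (i, k))) * x (Sum.inl (ρ w, (k, j))) = 0 := by
  unfold eB Pt
  simp only [Set.forall_mem_range, Prod.forall, map_sum, map_mul, ev_X]

open Classical in
/-- the forms of the first phase -/
noncomputable def l1 (n : ℕ) (W : Type) : A → (B × Fin n) → Fin n →
    MvPolynomial ((B × (Fin n × Fin n)) ⊕ (W × (Fin n × Fin n))) ℤ :=
  fun a p r => if (a, p.1) ∈ E then X (Sum.inl (p.1, (p.2, r))) else 0

open Classical in
/-- the forms of the second phase -/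
noncomputable def l2 (n : ℕ) : B → A → Fin n → MvPolynomial (A × Fin n) ℤ :=
  fun b a r => if (a, b) ∈ E then X (a, r) else 0

lemma l1_sum {R : Type} [CommRing R] (x : (B × (Fin n × Fin n)) ⊕ (W × (Fin n × Fin n)) → R)
    (a : A) (v : Fin n → R) :
    (∀ i, ∑ r, ev x (l1 E n W a i r) * v r = 0) ↔
      ∀ b, (a, b) ∈ E → ∀ i, ∑ r, x (Sum.inl (b, (i, r))) * v r = 0 := by
  constructor
  · intro h b hb i
    have h1 := h (b, i)
    unfold l1 at h1
    simp only [if_pos hb, ev_X] at h1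
    exact h1
  · rintro h ⟨b, i⟩
    unfold l1
    by_cases hb : (a, b) ∈ E
    · simp only [if_pos hb, ev_X]
      exact h b hb i
    · simp only [if_neg hb, map_zero, zero_mul, Finset.sum_const_zero]

lemma l2_sum {R : Type} [CommRing R] (x : A × Fin n → R) (b : B) (v : Fin n → R) :
    (∀ a, ∑ r, ev x (l2 E n b a r) * v r = 0) ↔
      ∀ a, (a, b) ∈ E → ∑ r, x (a, r) * v r = 0 := by
  refine forall_congr' fun a => ?_
  unfold l2
  by_cases hb : (a, b) ∈ E
  · simp only [hb, if_true, ev_X, true_imp_iff]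
  · simp only [hb, if_false, map_zero, zero_mul, Finset.sum_const_zero, false_imp_iff]

end

section
variable {G : ∀ (R : Type) [CommRing R], Prop} (hG : RG G) {m : ℕ} {A B : Type} [Finite A]
  [Finite B] (E : Set (A × B))

omit [Finite A] [Finite B] in
lemma pt_ph1 {Y W : Type} {π : Y → A} {ρ : W → B} {S : Set A} {R : Type} [CommRing R]
    {x : PV (m + 1) ((B × (Fin (m + 1) × Fin (m + 1))) ⊕ (W × (Fin (m + 1) × Fin (m + 1)))) A Y →
      R} : Pt (PS (l1 E (m + 1) W) (eB ρ) π S) x ↔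
      (∀ w i j, ∑ k, pb x (Sum.inr (w, (i, k))) * pb x (Sum.inl (ρ w, (k, j))) = 0) ∧
      (∀ a b, (a, b) ∈ E → ∀ i c, ∑ r, pb x (Sum.inl (b, (i, r))) * pm x a r c = 0) ∧
      (∀ y r c, ∑ j, pm x (π y) r j * py x y j c = 0) ∧
      ∀ a ∈ S, ∀ r c, c ≠ 0 → pm x a r c = 0 := by
  rw [pt_ps, pt_eB]
  refine and_congr_right fun _ => and_congr_left fun _ => ?_
  constructor
  · intro h a b hb i c
    exact (l1_sum E (pb x) a (fun r => pm x a r c)).1 (fun i => h a i c) b hb i
  · intro h a i c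
    exact (l1_sum E (pb x) a (fun r => pm x a r c)).2 (fun b hb i => h a b hb i c) i

omit [Finite A] [Finite B] in
lemma pt_ph2 {W : Type} {ρ : W → B} {S : Set B} {R : Type} [CommRing R]
    {x : PV (m + 1) (A × Fin (m + 1)) B W → R} :
    Pt (PS (l2 E (m + 1)) (∅ : Set (MvPolynomial (A × Fin (m + 1)) ℤ)) ρ S) x ↔
      (∀ a b, (a, b) ∈ E → ∀ c, ∑ r, pb x (a, r) * pm x b r c = 0) ∧
      (∀ w r c, ∑ j, pm x (ρ w) r j * py x w j c = 0) ∧
      ∀ b ∈ S, ∀ r c, c ≠ 0 → pm x b r c = 0 := by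
  rw [pt_ps]
  have h0 : Pt (∅ : Set (MvPolynomial (A × Fin (m + 1)) ℤ)) (pb x) := by
    intro p hp
    exact absurd hp (Set.notMem_empty p)
  rw [and_iff_right h0]
  refine and_congr_left fun _ => ?_
  constructor
  · intro h a b hb c
    exact (l2_sum E (pb x) b (fun r => pm x b r c)).1 (fun a => h b a c) a hb
  · intro h b a c
    exact (l2_sum E (pb x) b (fun r => pm x b r c)).2 (fun a hb => h a b hb c) a

include hG

/-- entry to the first phase -/
lemma gs_ph1_in {Y W : Type} [Finite Y] [Finite W] (π : Y → A) (ρ : W → B)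
    (h : GS G (monS (m + 1) (dgr E π ρ))) :
    GS G (PS (l1 E (m + 1) W) (eB ρ) π (∅ : Set A)) := by
  refine (hG.gs_iso
    (fun R _ x => (mkP (Sum.elim (fun p => x (Sum.inl (Sum.inr p.1), p.2))
      (fun p => x (Sum.inr (Sum.inr p.1), p.2)))
      (fun a r c => x (Sum.inl (Sum.inl a), (r, c)))
      (fun y r c => x (Sum.inr (Sum.inl y), (r, c))) : PV (m + 1) _ A Y → R))
    (fun R _ y => fun p => Sum.elim (Sum.elim (fun a => pm y a p.2.1 p.2.2)
      (fun b => pb y (Sum.inl (b, p.2)))) (Sum.elim (fun z => py y z p.2.1 p.2.2)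
      (fun w => pb y (Sum.inr (w, p.2)))) p.1)
    ?_ ?_ ?_ ?_ ?_ ?_).1 h
  · intro R R' _ _ φ x _ i
    rcases i with (i | i) | i | i <;> rfl
  · intro R R' _ _ φ x _ i
    rcases i with ⟨(i | i) | i | i, p⟩ <;> rfl
  · intro R _ x hx
    rw [pt_dgr] at hx
    rw [pt_ph1]
    refine ⟨hx.2, fun a b hb i c => hx.1.1 (a, b) hb i c, fun y r c => hx.1.2 y r c,
      fun a ha => absurd ha (Set.notMem_empty a)⟩
  · intro R _ y hy
    rw [pt_ph1] at hy
    rw [pt_dgr]
    exact ⟨⟨fun e he i j => hy.2.1 e.1 e.2 he i j, fun z i j => hy.2.2.1 z i j⟩, hy.1⟩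
  · intro R _ x _
    funext i
    rcases i with ⟨(i | i) | i | i, p⟩ <;> rfl
  · intro R _ y _
    funext i
    rcases i with (i | i) | i | i <;> rfl

/-- from the first phase to the second -/
lemma gs_ph12 {W : Type} [Finite W] (ρ : W → B)
    (h : GS G (PS (l1 E (m + 1) W) (eB ρ) (fun z : Empty => (z.elim : A)) Set.univ)) :
    GS G (PS (l2 E (m + 1)) (∅ : Set (MvPolynomial (A × Fin (m + 1)) ℤ)) ρ (∅ : Set B)) := by
  refine (hG.gs_iso
    (fun R _ x => (mkP (fun p => pm x p.1 p.2 0) (fun b r c => pb x (Sum.inl (b, (c, r))))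
      (fun w r c => pb x (Sum.inr (w, (c, r)))) : PV (m + 1) (A × Fin (m + 1)) B W → R))
    (fun R _ y => (mkP (Sum.elim (fun p => pm y p.1 p.2.2 p.2.1) (fun p => py y p.1 p.2.2 p.2.1))
      (fun a r c => if c = 0 then pb y (a, r) else 0) (fun z => z.elim) :
      PV (m + 1) _ A Empty → R))
    ?_ ?_ ?_ ?_ ?_ ?_).1 h
  · intro R R' _ _ φ x _ i
    rcases i with i | i | i <;> rfl
  · intro R R' _ _ φ y _ i
    refine (mkP_map φ _ _ _ i).trans ?_
    rcases i with (i | i) | ⟨a, r, c⟩ | i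
    · rfl
    · rfl
    · show φ (if c = 0 then _ else 0) = if c = 0 then _ else 0
      split_ifs
      · rfl
      · exact map_zero φ
    · exact i.1.elim
  · intro R _ x hx
    rw [pt_ph1] at hx
    obtain ⟨h1, h2, _, h4⟩ := hx
    rw [pt_ph2]
    simp only [pb_mkP, pm_mkP, py_mkP]
    refine ⟨fun a b hb c => ?_, fun w r c => ?_, fun a ha => absurd ha (Set.notMem_empty a)⟩
    · rw [← h2 a b hb c 0]
      exact Finset.sum_congr rfl fun r _ => mul_comm _ _
    · rw [← h1 w c r]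
      exact Finset.sum_congr rfl fun r _ => mul_comm _ _
  · intro R _ y hy
    rw [pt_ph2] at hy
    obtain ⟨h1, h2, _⟩ := hy
    rw [pt_ph1]
    simp only [pb_mkP, pm_mkP]
    refine ⟨fun w i j => ?_, fun a b hb i c => ?_, fun z => z.elim, fun a _ r c hc => if_neg hc⟩
    · rw [← h2 w j i]
      exact Finset.sum_congr rfl fun r _ => mul_comm _ _
    · by_cases hc : c = 0
      · simp only [if_pos hc]
        rw [← h1 a b hb i]
        exact Finset.sum_congr rfl fun r _ => mul_comm _ _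
      · simp only [if_neg hc, mul_zero, Finset.sum_const_zero]
  · intro R _ x hx
    rw [pt_ph1] at hx
    obtain ⟨h1, h2, _, h4⟩ := hx
    refine pv_ext ?_ (fun a r c => ?_) fun z => z.elim
    · funext i
      rcases i with i | i <;> rfl
    · show (if c = 0 then pm x a r 0 else 0) = pm x a r c
      by_cases hc : c = 0
      · rw [if_pos hc, hc]
      · rw [if_neg hc]
        exact (h4 a (Set.mem_univ a) r c hc).symm
  · intro R _ y _
    exact pv_ext rfl (fun a r c => rfl) fun a r c => rfl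

/-- exit from the second phase -/
lemma gs_ph2_out (h : GS G (PS (l2 E (m + 1)) (∅ : Set (MvPolynomial (A × Fin (m + 1)) ℤ))
      (fun z : Empty => (z.elim : B)) Set.univ)) : GS G (orS (m + 1) E) := by
  refine (hG.gs_iso
    (fun R _ x => Sum.elim (pb x) (fun p => pm x p.1 p.2 0))
    (fun R _ y => (mkP (fun p => y (Sum.inl p)) (fun b r c => if c = 0 then y (Sum.inr (b, r)) else 0)
      (fun z => z.elim) : PV (m + 1) (A × Fin (m + 1)) B Empty → R))
    ?_ ?_ ?_ ?_ ?_ ?_).1 h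
  · intro R R' _ _ φ x _ i
    rcases i with i | i <;> rfl
  · intro R R' _ _ φ y _ i
    refine (mkP_map φ _ _ _ i).trans ?_
    rcases i with i | ⟨a, r, c⟩ | i
    · rfl
    · show φ (if c = 0 then _ else 0) = if c = 0 then _ else 0
      split_ifs
      · rfl
      · exact map_zero φ
    · exact i.1.elim
  · intro R _ x hx
    rw [pt_ph2] at hx
    rw [pt_ors]
    intro e he
    exact hx.1 e.1 e.2 he 0
  · intro R _ y hy
    rw [pt_ors] at hy
    rw [pt_ph2]
    simp only [pb_mkP, pm_mkP]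
    refine ⟨fun a b hb c => ?_, fun z => z.elim, fun a _ r c hc => if_neg hc⟩
    by_cases hc : c = 0
    · simp only [if_pos hc]
      exact hy (a, b) hb
    · simp only [if_neg hc, mul_zero, Finset.sum_const_zero]
  · intro R _ x hx
    rw [pt_ph2] at hx
    refine pv_ext rfl (fun a r c => ?_) fun z => z.elim
    show (if c = 0 then pm x a r 0 else 0) = pm x a r c
    by_cases hc : c = 0
    · rw [if_pos hc, hc]
    · rw [if_neg hc]
      exact (hx.2.2 a (Set.mem_univ a) r c hc).symm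
  · intro R _ y _
    funext i
    rcases i with i | i <;> rfl

omit [Finite A] [Finite B] in
/-- **From quadratic monomial algebras to orthogonality relations.** -/
theorem ohyp_of_mhyp (hS : SemF G) (h : MHyp G (m + 1)) : OHyp G (m + 1) := by
  intro A B _ _ E
  have h2 : ∀ (W : Type) [Finite W] (ρ : W → B),
      GS G (PS (l2 E (m + 1)) (∅ : Set (MvPolynomial (A × Fin (m + 1)) ℤ)) ρ (∅ : Set B)) := by
    intro W _ ρ
    refine gs_ph12 hG E ρ ?_
    refine gs_phase hG (l1 E (m + 1) W) (eB ρ) hS (fun Y _ π => ?_) Set.univ Empty _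
      (fun z => z.elim)
    exact gs_ph1_in hG E π ρ (h _ _ (lay A B Y W) (lay_dgr E π ρ))
  exact gs_ph2_out hG E (gs_phase hG (l2 E (m + 1)) ∅ hS h2 Set.univ Empty _ (fun z => z.elim))

end

end Pool.Agent.Helper81.RP
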