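import Pool.Agent.Helper81.RP.SemF

/-!
# Reduction of matrices to vectors
-/

set_option autoImplicit false

open MvPolynomial
open Pool.Agent.Helper81.CP Pool.Agent.Helper81.HG Pool.Agent.Helper45.RM

namespace Pool.Agent.Helper81.RP

/-- the variables: the base, matrices `x_a` and matrices `z_y` -/
abbrev PV (n : ℕ) (σ A Y : Type) : Type := σ ⊕ ((A × (Fin n × Fin n)) ⊕ (Y × (Fin n × Fin n)))

/-- the base point -/
def pb {n : ℕ} {σ A Y R : Type} (x : PV n σ A Y → R) : σ → R := fun i => x (Sum.inl i)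

/-- the matrices `x_a` -/
def pm {n : ℕ} {σ A Y R : Type} (x : PV n σ A Y → R) (a : A) (r c : Fin n) : R :=
  x (Sum.inr (Sum.inl (a, (r, c))))

/-- the matrices `z_y` -/
def py {n : ℕ} {σ A Y R : Type} (x : PV n σ A Y → R) (y : Y) (r c : Fin n) : R :=
  x (Sum.inr (Sum.inr (y, (r, c))))

lemma pv_ext {n : ℕ} {σ A Y R : Type} {x y : PV n σ A Y → R} (h1 : pb x = pb y)
    (h2 : ∀ a r c, pm x a r c = pm y a r c) (h3 : ∀ a r c, py x a r c = py y a r c) : x = y := by
  funext i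
  rcases i with i | ⟨a, r, c⟩ | ⟨a, r, c⟩
  · exact congrFun h1 i
  · exact h2 a r c
  · exact h3 a r c

section
variable {m : ℕ} {σ I A : Type} (L : A → I → Fin (m + 1) → MvPolynomial σ ℤ)
  (E : Set (MvPolynomial σ ℤ))

/-- matrices `x_a` in the common kernel of the forms `L a i`, matrices `z_y` with
`x_(π y) z_y = 0`; the matrices `x_a` with `a ∈ S` have only one column -/
noncomputable def PS {Y : Type} (π : Y → A) (S : Set A) :
    Set (MvPolynomial (PV (m + 1) σ A Y) ℤ) :=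
  rename Sum.inl '' E ∪
    (Set.range fun p : A × I × Fin (m + 1) =>
      ∑ r, rename Sum.inl (L p.1 p.2.1 r) * X (Sum.inr (Sum.inl (p.1, (r, p.2.2))))) ∪
    (Set.range fun p : Y × Fin (m + 1) × Fin (m + 1) =>
      ∑ c, X (Sum.inr (Sum.inl (π p.1, (p.2.1, c)))) * X (Sum.inr (Sum.inr (p.1, (c, p.2.2))))) ∪
    (fun p : A × Fin (m + 1) × Fin (m + 1) => X (Sum.inr (Sum.inl (p.1, (p.2.1, p.2.2))))) ''
      {p | p.1 ∈ S ∧ p.2.2 ≠ 0}

lemma pt_ps {Y : Type} {π : Y → A} {S : Set A} {R : Type} [CommRing R]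
    {x : PV (m + 1) σ A Y → R} : Pt (PS L E π S) x ↔
      Pt E (pb x) ∧ (∀ a i c, ∑ r, ev (pb x) (L a i r) * pm x a r c = 0) ∧
      (∀ y r c, ∑ j, pm x (π y) r j * py x y j c = 0) ∧
      ∀ a ∈ S, ∀ r c, c ≠ 0 → pm x a r c = 0 := by
  have h : Pt (PS L E π S) x ↔
      ((Pt E (pb x) ∧ (∀ a i c, ∑ r, ev (pb x) (L a i r) * pm x a r c = 0)) ∧
      (∀ y r c, ∑ j, pm x (π y) r j * py x y j c = 0)) ∧
      ∀ p : A × Fin (m + 1) × Fin (m + 1), p.1 ∈ S ∧ p.2.2 ≠ 0 → pm x p.1 p.2.1 p.2.2 = 0 := by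
    unfold PS Pt
    simp only [Set.mem_union, or_imp, forall_and, Set.forall_mem_image, Set.forall_mem_range,
      Set.mem_ofPred_eq, Prod.forall, map_sum, map_mul, ev_rename, ev_X]
    rfl
  rw [h, and_assoc, and_assoc]
  refine and_congr_right fun _ => and_congr_right fun _ => and_congr_right fun _ => ?_
  exact ⟨fun h a ha r c hc => h (a, r, c) ⟨ha, hc⟩, fun h p hp => h p.1 hp.1 p.2.1 p.2.2 hp.2⟩

/-- the base for the step -/
noncomputable def BS {Y : Type} (π : Y → A) (S : Set A) (a : A) :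
    Set (MvPolynomial (PV (m + 1) σ A Y) ℤ) :=
  PS L E π S ∪ Set.range fun p : Fin (m + 1) × Fin (m + 1) => X (Sum.inr (Sum.inl (a, p)))

lemma pt_bs {Y : Type} {π : Y → A} {S : Set A} {a : A} {R : Type} [CommRing R]
    {x : PV (m + 1) σ A Y → R} : Pt (BS L E π S a) x ↔
      Pt (PS L E π S) x ∧ ∀ r c, pm x a r c = 0 := by
  have h : Pt (BS L E π S a) x ↔ Pt (PS L E π S) x ∧
      ∀ p : Fin (m + 1) × Fin (m + 1), pm x a p.1 p.2 = 0 := by
    conv_lhs => unfold BS Pt
    simp only [Set.mem_union, or_imp, forall_and, Set.forall_mem_range, ev_X]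
    rfl
  rw [h, Prod.forall]

/-- the forms for the step -/
noncomputable def LL (Y : Type) (a : A) : I → Fin (m + 1) → MvPolynomial (PV (m + 1) σ A Y) ℤ :=
  fun i r => rename Sum.inl (L a i r)

lemma ev_ll {Y : Type} (a : A) {R : Type} [CommRing R] (x : PV (m + 1) σ A Y → R) (i : I)
    (r : Fin (m + 1)) : ev x (LL L Y a i r) = ev (pb x) (L a i r) := by
  unfold LL
  rw [ev_rename]
  rfl

open Classical in
/-- replace the matrix `x_a` -/
noncomputable def upd {Y R : Type} (a : A) (v : Fin (m + 1) → Fin (m + 1) → R)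
    (x : PV (m + 1) σ A Y → R) : PV (m + 1) σ A Y → R :=
  Sum.elim (pb x) (Sum.elim (fun p => if p.1 = a then v p.2.1 p.2.2 else pm x p.1 p.2.1 p.2.2)
    (fun p => py x p.1 p.2.1 p.2.2))

lemma pb_upd {Y R : Type} (a : A) (v : Fin (m + 1) → Fin (m + 1) → R)
    (x : PV (m + 1) σ A Y → R) : pb (upd a v x) = pb x := rfl

lemma py_upd {Y R : Type} (a : A) (v : Fin (m + 1) → Fin (m + 1) → R)
    (x : PV (m + 1) σ A Y → R) (y : Y) (r c : Fin (m + 1)) : py (upd a v x) y r c = py x y r c :=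
  rfl

lemma pm_upd {Y R : Type} (a : A) (v : Fin (m + 1) → Fin (m + 1) → R)
    (x : PV (m + 1) σ A Y → R) (r c : Fin (m + 1)) : pm (upd a v x) a r c = v r c :=
  if_pos rfl

lemma pm_upd_ne {Y R : Type} {a a' : A} (h : a' ≠ a) (v : Fin (m + 1) → Fin (m + 1) → R)
    (x : PV (m + 1) σ A Y → R) (r c : Fin (m + 1)) : pm (upd a v x) a' r c = pm x a' r c :=
  if_neg h

lemma upd_map {Y R R' : Type} [CommRing R] [CommRing R'] (φ : R →+* R') (a : A)
    (v : Fin (m + 1) → Fin (m + 1) → R) (x : PV (m + 1) σ A Y → R) (i : PV (m + 1) σ A Y) :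
    φ (upd a v x i) = upd a (fun r c => φ (v r c)) (fun i => φ (x i)) i := by
  rcases i with i | ⟨a', r, c⟩ | i
  · rfl
  · show φ (pm (upd a v x) a' r c) = pm (upd a (fun r c => φ (v r c)) (fun i => φ (x i))) a' r c
    by_cases h : a' = a
    · rw [h, pm_upd, pm_upd]
    · rw [pm_upd_ne h, pm_upd_ne h]
      rfl
  · rfl

lemma upd_upd {Y R : Type} (a : A) (v w : Fin (m + 1) → Fin (m + 1) → R)
    (x : PV (m + 1) σ A Y → R) : upd a v (upd a w x) = upd a v x := by
  refine pv_ext rfl (fun a' r c => ?_) fun y r c => rfl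
  by_cases h : a' = a
  · rw [h, pm_upd, pm_upd]
  · rw [pm_upd_ne h, pm_upd_ne h, pm_upd_ne h]

lemma upd_self {Y R : Type} (a : A) (x : PV (m + 1) σ A Y → R) (v : Fin (m + 1) → Fin (m + 1) → R)
    (h : ∀ r c, pm x a r c = v r c) : upd a v x = x := by
  refine pv_ext rfl (fun a' r c => ?_) fun y r c => rfl
  by_cases h' : a' = a
  · rw [h', pm_upd, h]
  · rw [pm_upd_ne h']

/-- replacing a matrix which does not occur elsewhere -/
lemma pt_upd {Y : Type} {π : Y → A} {S : Set A} {a : A} (ha : a ∉ S) (hπ : ∀ y, π y ≠ a)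
    {R : Type} [CommRing R] {x : PV (m + 1) σ A Y → R} {v : Fin (m + 1) → Fin (m + 1) → R}
    (hx : Pt (PS L E π S) x) (hv : ∀ i c, ∑ r, ev (pb x) (L a i r) * v r c = 0) :
    Pt (PS L E π S) (upd a v x) := by
  rw [pt_ps] at hx ⊢
  obtain ⟨h1, h2, h3, h4⟩ := hx
  refine ⟨h1, fun a' i c => ?_, fun y r c => ?_, fun a' ha' r c hc => ?_⟩
  · rw [pb_upd]
    by_cases h : a' = a
    · subst h
      simp only [pm_upd]
      exact hv i c
    · simp only [pm_upd_ne h]
      exact h2 a' i c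
  · simp only [pm_upd_ne (hπ y), py_upd]
    exact h3 y r c
  · have h : a' ≠ a := fun h => ha (h ▸ ha')
    rw [pm_upd_ne h]
    exact h4 a' ha' r c hc

end

/-! ### The step -/

/-- points of a family of vectors -/
def mkF {n : ℕ} {σ R : Type} {k M : ℕ} (z : σ → R) (v : Fin n → Fin k → R)
    (w : Fin k → Fin M → R) : FV n σ k M → R :=
  Sum.elim z (Sum.elim (fun p => v p.1 p.2) (fun p => w p.1 p.2))

lemma bs_mkF {n : ℕ} {σ R : Type} {k M : ℕ} (z : σ → R) (v : Fin n → Fin k → R)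
    (w : Fin k → Fin M → R) : bs (mkF z v w) = z := rfl

lemma vv_mkF {n : ℕ} {σ R : Type} {k M : ℕ} (z : σ → R) (v : Fin n → Fin k → R)
    (w : Fin k → Fin M → R) (r : Fin n) (c : Fin k) : vv (mkF z v w) r c = v r c := rfl

lemma zz_mkF {n : ℕ} {σ R : Type} {k M : ℕ} (z : σ → R) (v : Fin n → Fin k → R)
    (w : Fin k → Fin M → R) (c : Fin k) (j : Fin M) : zz (mkF z v w) c j = w c j := rfl

lemma mkF_map {n : ℕ} {σ R R' : Type} [CommRing R] [CommRing R'] (φ : R →+* R') {k M : ℕ}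
    (z : σ → R) (v : Fin n → Fin k → R) (w : Fin k → Fin M → R) (i : FV n σ k M) :
    φ (mkF z v w i) = mkF (fun i => φ (z i)) (fun r c => φ (v r c)) (fun r c => φ (w r c)) i := by
  rcases i with i | i | i <;> rfl

/-- points of a family of matrices -/
def mkP {n : ℕ} {σ A Y R : Type} (b : σ → R) (x : A → Fin n → Fin n → R)
    (y : Y → Fin n → Fin n → R) : PV n σ A Y → R :=
  Sum.elim b (Sum.elim (fun p => x p.1 p.2.1 p.2.2) (fun p => y p.1 p.2.1 p.2.2))

lemma pb_mkP {n : ℕ} {σ A Y R : Type} (b : σ → R) (x : A → Fin n → Fin n → R)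
    (y : Y → Fin n → Fin n → R) : pb (mkP b x y) = b := rfl

lemma pm_mkP {n : ℕ} {σ A Y R : Type} (b : σ → R) (x : A → Fin n → Fin n → R)
    (y : Y → Fin n → Fin n → R) (a : A) (r c : Fin n) : pm (mkP b x y) a r c = x a r c := rfl

lemma py_mkP {n : ℕ} {σ A Y R : Type} (b : σ → R) (x : A → Fin n → Fin n → R)
    (y : Y → Fin n → Fin n → R) (a : Y) (r c : Fin n) : py (mkP b x y) a r c = y a r c := rfl

lemma mkP_map {n : ℕ} {σ A Y R R' : Type} [CommRing R] [CommRing R'] (φ : R →+* R')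
    (b : σ → R) (x : A → Fin n → Fin n → R) (y : Y → Fin n → Fin n → R) (i : PV n σ A Y) :
    φ (mkP b x y i) = mkP (fun i => φ (b i)) (fun a r c => φ (x a r c))
      (fun a r c => φ (y a r c)) i := by
  rcases i with i | i | i <;> rfl

section
variable {m : ℕ} {σ A Y : Type} {N M : ℕ} (e : Fin N × Fin (m + 1) ≃ Fin M) (a : A) {R : Type}
  [CommRing R]

/-- to the family of vectors -/
noncomputable def toF (x : PV (m + 1) σ A (Y ⊕ Fin N) → R) :
    FV (m + 1) (PV (m + 1) σ A Y) (m + 1) M → R :=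
  mkF (upd a (fun _ _ => 0) (mkP (pb x) (pm x) (fun y => py x (Sum.inl y)))) (pm x a)
    (fun c j => py x (Sum.inr (e.symm j).1) c (e.symm j).2)

/-- from the family of vectors -/
noncomputable def ofF (y : FV (m + 1) (PV (m + 1) σ A Y) (m + 1) M → R) :
    PV (m + 1) σ A (Y ⊕ Fin N) → R :=
  upd a (vv y) (mkP (pb (bs y)) (pm (bs y)) (fun z r c => Sum.elim (fun q => py (bs y) q r c)
    (fun j => zz y r (e (j, c))) z))

lemma bs_toF (x : PV (m + 1) σ A (Y ⊕ Fin N) → R) : bs (toF e a x) =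
    upd a (fun _ _ => 0) (mkP (pb x) (pm x) (fun y => py x (Sum.inl y))) := rfl

lemma vv_toF (x : PV (m + 1) σ A (Y ⊕ Fin N) → R) (r c : Fin (m + 1)) :
    vv (toF e a x) r c = pm x a r c := rfl

lemma zz_toF (x : PV (m + 1) σ A (Y ⊕ Fin N) → R) (c : Fin (m + 1)) (j : Fin M) :
    zz (toF e a x) c j = py x (Sum.inr (e.symm j).1) c (e.symm j).2 := rfl

/-- one column, out of the family of vectors -/
noncomputable def ofG (y : FV (m + 1) (PV (m + 1) σ A Y) 1 0 → R) : PV (m + 1) σ A Y → R :=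
  upd a (fun r c => if c = 0 then vv y r 0 else 0) (bs y)

/-- one column, into the family of vectors -/
noncomputable def toG (x : PV (m + 1) σ A Y → R) : FV (m + 1) (PV (m + 1) σ A Y) 1 0 → R :=
  mkF (upd a (fun _ _ => 0) x) (fun r _ => pm x a r 0) (fun _ j => j.elim0)

lemma bs_toG (x : PV (m + 1) σ A Y → R) : bs (toG a x) = upd a (fun _ _ => 0) x := rfl

lemma vv_toG (x : PV (m + 1) σ A Y → R) (r : Fin (m + 1)) (c : Fin 1) :
    vv (toG a x) r c = pm x a r 0 := rfl

end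

section
variable {G : ∀ (R : Type) [CommRing R], Prop} (hG : RG G) {m : ℕ} {σ I A : Type} [Finite σ]
  [Finite A] (L : A → I → Fin (m + 1) → MvPolynomial σ ℤ) (E : Set (MvPolynomial σ ℤ))

include hG

/-- entry -/
lemma gs_step_in {S : Set A} {a : A} (ha : a ∉ S) {Y : Type} [Finite Y] (π : Y → A)
    (hπ : ∀ y, π y ≠ a) {N M : ℕ} (e : Fin N × Fin (m + 1) ≃ Fin M)
    (h : GS G (PS L E (Sum.elim π (fun _ : Fin N => a)) S)) :
    GS G (FS (LL L Y a) (BS L E π S a) (m + 1) M) := by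
  refine (hG.gs_iso (fun R _ x => toF e a x) (fun R _ y => ofF e a y) ?_ ?_ ?_ ?_ ?_ ?_).1 h
  · intro R R' _ _ φ x _ i
    refine (mkF_map φ _ _ _ i).trans ?_
    have hA : (fun i => φ (upd a (fun _ _ => 0)
        (mkP (pb x) (pm x) (fun y => py x (Sum.inl y))) i)) =
        upd a (fun _ _ => 0) (mkP (pb fun i => φ (x i)) (pm fun i => φ (x i))
          (fun y => py (fun i => φ (x i)) (Sum.inl y))) := by
      funext i
      rw [upd_map]
      simp only [map_zero]
      congr 1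
      funext j
      exact mkP_map φ _ _ _ j
    rw [hA]
    rfl
  · intro R R' _ _ φ y _ i
    refine (upd_map φ a _ _ i).trans ?_
    refine congrFun (congrArg (upd a _) ?_) i
    funext j
    refine (mkP_map φ _ _ _ j).trans ?_
    refine congrFun (congrArg (mkP _ _) ?_) j
    funext z r c
    rcases z with z | z <;> rfl
  · intro R _ x hx
    rw [pt_ps] at hx
    obtain ⟨h1, h2, h3, h4⟩ := hx
    rw [pt_fs, pt_bs]
    unfold toF
    simp only [bs_mkF, vv_mkF, zz_mkF, ev_ll, pb_upd, pb_mkP]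
    refine ⟨⟨?_, fun r c => pm_upd a _ _ r c⟩, fun i c => ?_, fun r j => ?_⟩
    · refine pt_upd L E ha hπ ?_ fun i c => by simp
      rw [pt_ps]
      exact ⟨h1, h2, fun y r c => h3 (Sum.inl y) r c, h4⟩
    · exact h2 a i c
    · exact h3 (Sum.inr (e.symm j).1) r (e.symm j).2
  · intro R _ y hy
    rw [pt_fs, pt_bs] at hy
    obtain ⟨⟨h1, h0⟩, h2, h3⟩ := hy
    simp only [ev_ll] at h2
    rw [pt_ps] at h1
    obtain ⟨g1, g2, g3, g4⟩ := h1
    rw [pt_ps]
    unfold ofF
    refine ⟨g1, fun a' i c => ?_, fun z r c => ?_, fun a' ha' r c hc => ?_⟩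
    · rw [pb_upd, pb_mkP]
      by_cases h : a' = a
      · subst h
        simp only [pm_upd]
        exact h2 i c
      · simp only [pm_upd_ne h, pm_mkP]
        exact g2 a' i c
    · rcases z with z | z
      · have hz : Sum.elim π (fun _ : Fin N => a) (Sum.inl z) ≠ a := hπ z
        simp only [pm_upd_ne hz, py_upd, pm_mkP, py_mkP]
        exact g3 z r c
      · have hz : Sum.elim π (fun _ : Fin N => a) (Sum.inr z) = a := rfl
        simp only [hz, pm_upd, py_upd, py_mkP]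
        exact h3 r (e (z, c))
    · have h : a' ≠ a := fun h => ha (h ▸ ha')
      rw [pm_upd_ne h]
      exact g4 a' ha' r c hc
  · intro R _ x hx
    show ofF e a (toF e a x) = x
    refine pv_ext rfl (fun a' r c => ?_) fun y r c => ?_
    · unfold ofF
      by_cases h : a' = a
      · rw [h, pm_upd]
        rfl
      · rw [pm_upd_ne h, pm_mkP, bs_toF, pm_upd_ne h, pm_mkP]
    · rcases y with y | y
      · rfl
      · show py x (Sum.inr (e.symm (e (y, c))).1) r (e.symm (e (y, c))).2 = _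
        rw [Equiv.symm_apply_apply]
  · intro R _ y hy
    show toF e a (ofF e a y) = y
    rw [pt_fs, pt_bs] at hy
    obtain ⟨⟨h1, h0⟩, h2, h3⟩ := hy
    refine fv_ext ?_ (fun r c => ?_) fun c j => ?_
    · refine pv_ext rfl (fun a' r c => ?_) fun z r c => rfl
      rw [bs_toF]
      by_cases h : a' = a
      · subst h
        rw [h0, pm_upd]
      · rw [pm_upd_ne h, pm_mkP]
        exact pm_upd_ne h _ _ r c
    · exact pm_upd a _ _ r c
    · show zz y c (e ((e.symm j).1, (e.symm j).2)) = _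
      rw [Prod.mk.eta, Equiv.apply_symm_apply]

/-- exit -/
lemma gs_step_out {S : Set A} {a : A} (ha : a ∉ S) {Y : Type} [Finite Y] (π : Y → A)
    (hπ : ∀ y, π y ≠ a) (h : GS G (FS (LL L Y a) (BS L E π S a) 1 0)) :
    GS G (PS L E π (insert a S)) := by
  refine (hG.gs_iso (fun R _ y => ofG a y) (fun R _ x => toG a x) ?_ ?_ ?_ ?_ ?_ ?_).1 h
  · intro R R' _ _ φ y _ i
    refine (upd_map φ a _ _ i).trans ?_
    refine congrFun (congrFun (congrArg (upd a) ?_) _) i
    funext r c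
    split_ifs
    · rfl
    · exact map_zero φ
  · intro R R' _ _ φ x _ i
    refine (mkF_map φ _ _ _ i).trans ?_
    have hA : (fun i => φ (upd a (fun _ _ => 0) x i)) =
        upd a (fun _ _ => 0) (fun i => φ (x i)) := by
      funext i
      rw [upd_map]
      simp only [map_zero]
    rw [hA]
    rcases i with i | i | i
    · rfl
    · rfl
    · exact i.2.elim0
  · intro R _ y hy
    rw [pt_fs, pt_bs] at hy
    obtain ⟨⟨h1, h0⟩, h2, _⟩ := hy
    simp only [ev_ll] at h2
    have h3 : Pt (PS L E π S) (ofG a y) := by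
      refine pt_upd L E ha hπ h1 fun i c => ?_
      by_cases hc : c = 0
      · simp only [if_pos hc]
        exact h2 i 0
      · simp only [if_neg hc, mul_zero, Finset.sum_const_zero]
    show Pt _ (ofG a y)
    rw [pt_ps] at h3 ⊢
    refine ⟨h3.1, h3.2.1, h3.2.2.1, fun a' ha' r c hc => ?_⟩
    rcases ha' with ha' | ha'
    · rw [ha']
      exact (pm_upd a _ _ r c).trans (if_neg hc)
    · exact h3.2.2.2 a' ha' r c hc
  · intro R _ x hx
    rw [pt_ps] at hx
    obtain ⟨h1, h2, h3, h4⟩ := hx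
    rw [pt_fs, pt_bs]
    unfold toG
    simp only [bs_mkF, vv_mkF, ev_ll, pb_upd]
    refine ⟨⟨?_, fun r c => pm_upd a _ _ r c⟩, fun i c => ?_, fun r j => j.elim0⟩
    · refine pt_upd L E ha hπ ?_ fun i c => by simp
      rw [pt_ps]
      exact ⟨h1, h2, h3, fun a' ha' => h4 a' (Or.inr ha')⟩
    · exact h2 a i 0
  · intro R _ y hy
    show toG a (ofG a y) = y
    rw [pt_fs, pt_bs] at hy
    obtain ⟨⟨h1, h0⟩, h2, _⟩ := hy
    refine fv_ext ?_ (fun r c => ?_) fun c j => j.elim0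
    · rw [bs_toG]
      unfold ofG
      rw [upd_upd]
      exact upd_self a _ _ h0
    · rw [vv_toG]
      unfold ofG
      rw [pm_upd, if_pos rfl, Subsingleton.elim c 0]
  · intro R _ x hx
    show ofG a (toG a x) = x
    rw [pt_ps] at hx
    obtain ⟨h1, h2, h3, h4⟩ := hx
    unfold ofG
    rw [bs_toG, upd_upd]
    refine upd_self a _ _ fun r c => ?_
    by_cases hc : c = 0
    · rw [if_pos hc, hc, vv_toG]
    · rw [if_neg hc]
      exact h4 a (Or.inl rfl) r c hc

/-- **Reduction of matrices to vectors.** -/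
theorem gs_phase (hS : SemF G)
    (h : ∀ (Y : Type) [Finite Y] (π : Y → A), GS G (PS L E π (∅ : Set A))) (S : Set A) :
    ∀ (Y : Type) [Finite Y] (π : Y → A), (∀ y, π y ∉ S) → GS G (PS L E π S) := by
  induction S, Set.toFinite S using Set.Finite.induction_on with
  | empty => exact fun Y _ π _ => h Y π
  | @insert a S ha _ ih =>
    intro Y _ π hπ
    have hπ' : ∀ y, π y ≠ a := fun y hy => hπ y (Or.inl hy)
    refine gs_step_out hG L E ha π hπ' ?_
    refine gs_columns hS _ _ (m + 1) (by omega) (fun i _ => ?_) 1 (by omega)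
    have hM : 2 * (m + 1) * i = (2 * i) * (m + 1) := by ring
    rw [hM]
    refine gs_step_in hG L E ha π hπ' (N := 2 * i) finProdFinEquiv ?_
    refine ih (Y ⊕ Fin (2 * i)) _ fun y => ?_
    rcases y with y | y
    · exact fun hy => hπ y (Or.inr hy)
    · exact ha

end

end Pool.Agent.Helper81.RP
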