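import Pool.Agent.Helper45.RM.Red

/-!
# Reduction of a vector by the general linear group, weight by weight
-/

set_option autoImplicit false

open MvPolynomial
open Pool.Agent.Helper81.CP Pool.Agent.Helper45.RM

namespace Pool.Agent.Helper81.RP

variable {Q : ∀ (R : Type) [CommRing R], ℤ → Prop} (hQ : RingCP Q) {σ : Type} [Finite σ]
  {E : Set (MvPolynomial σ ℤ)} {m : ℕ} (w : Fin (m + 1) → MvPolynomial σ ℤ)

include hQ

/-- the strata -/
lemma qs_str (α : Act E w) (k : Fin (m + 1)) {s : ℤ}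
    (h : ∀ s' : ℤ, s - (m + 1 - (k : ℕ)) ≤ s' → QS Q (UW E w) s') :
    QS Q (dop (w k) (FW E w k)) s :=
  low_stratum hQ w α k (s - (m + 1 - (k : ℕ))) h s (by linarith)

lemma qs_fw_zero {s : ℤ} : QS Q (FW E w 0) s ↔ QS Q E s :=
  hQ.qs_congr (fun A _ x => by rw [pt_fw]; simp) s

/-- from the zero locus of the vector to the zero locus of its first `k` coordinates -/
lemma qs_fw_up (α : Act E w) {s : ℤ} (k₀ : ℕ)
    (h : ∀ s' : ℤ, s - (m + 1 - (k₀ : ℕ)) ≤ s' → QS Q (UW E w) s')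
    (h0 : QS Q (FW E w (m + 1)) s) (j : ℕ) :
    ∀ k : ℕ, k₀ ≤ k → k + j = m + 1 → QS Q (FW E w k) s := by
  induction j with
  | zero =>
    intro k _ hk
    rw [Nat.add_zero] at hk
    rw [hk]
    exact h0
  | succ j ih =>
    intro k hk₀ hk
    have hk' : k < m + 1 := by omega
    refine hQ.glue' (p := w ⟨k, hk'⟩) ((fw_step hQ w ⟨k, hk'⟩ s).mpr (ih (k + 1) (by omega)
      (by omega))) (qs_str hQ w α ⟨k, hk'⟩ fun s' hs' => h s' ?_)
    have h1 : ((k₀ : ℕ) : ℤ) ≤ (k : ℕ) := by exact_mod_cast hk₀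
    have h2 : ((((⟨k, hk'⟩ : Fin (m + 1)) : ℕ)) : ℤ) = (k : ℕ) := rfl
    rw [h2] at hs'
    linarith

/-- from the zero locus of the first `k` coordinates to the zero locus of the vector -/
lemma qs_fw_down (α : Act E w) {s : ℤ} (h : ∀ s' : ℤ, s - (m + 1) ≤ s' → QS Q (UW E w) s')
    (h0 : QS Q E s) (k : ℕ) (hk : k ≤ m + 1) : QS Q (FW E w k) s := by
  induction k with
  | zero => exact (qs_fw_zero hQ w).mpr h0
  | succ k ih =>
    have hk' : k < m + 1 := by omega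
    refine (fw_step hQ w ⟨k, hk'⟩ s).mp (hQ.closed' (ih (by omega))
      (qs_str hQ w α ⟨k, hk'⟩ fun s' hs' => h s' ?_))
    have h2 : ((((⟨k, hk'⟩ : Fin (m + 1)) : ℕ)) : ℤ) = (k : ℕ) := rfl
    rw [h2] at hs'
    have h3 : (0 : ℤ) ≤ (k : ℕ) := by positivity
    linarith

/-- the whole system from the two parts -/
theorem qs_whole (α : Act E w) {s : ℤ} (h : ∀ s' : ℤ, s - (m + 1) ≤ s' → QS Q (UW E w) s')
    (h0 : QS Q (FW E w (m + 1)) s) : QS Q E s :=
  (qs_fw_zero hQ w).mp (qs_fw_up hQ w α 0 (by simpa using h) h0 (m + 1) 0 le_rfl (by omega))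

/-- the zero locus from the rest -/
theorem qs_zero (α : Act E w) {s : ℤ} (h : ∀ s' : ℤ, s - (m + 1) ≤ s' → QS Q (UW E w) s')
    (h0 : QS Q E s) : QS Q (FW E w (m + 1)) s :=
  qs_fw_down hQ w α h h0 (m + 1) le_rfl

/-- the locus `w = e_0` in the smallest weight from the rest -/
theorem qs_unit (α : Act E w) {s : ℤ} (h : ∀ s' : ℤ, s - (m + 1) < s' → QS Q (UW E w) s')
    (h0 : QS Q (FW E w (m + 1)) s) (hE : QS Q E s) : QS Q (UW E w) (s - (m + 1)) := by
  have h1 : QS Q (FW E w 1) s := by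
    refine qs_fw_up hQ w α 1 (fun s' hs' => h s' ?_) h0 m 1 le_rfl (by omega)
    push_cast at hs'
    linarith
  have h2 : QS Q (dop (w 0) (FW E w 0)) s :=
    hQ.opn' ((qs_fw_zero hQ w).mpr hE) ((fw_step hQ w 0 s).mpr (by simpa using h1))
  exact lead_stratum hQ w α (s - (m + 1)) h (by rwa [sub_add_cancel])

end Pool.Agent.Helper81.RP
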