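import Pool.Agent.Helper81.RP.Lad
import Pool.Agent.Helper45.RM.Mod

/-!
# Classes which contain everything that has all cut-and-paste properties of finitely many members
-/

set_option autoImplicit false

open MvPolynomial AlgebraicGeometry
open Pool.Agent.Helper81.CP Pool.Agent.Helper81.HG Pool.Agent.Helper45.RM

namespace Pool.Agent.Helper81.RP

/-- a class which contains everything that has all cut-and-paste properties of finitely many
members -/
def SemF (G : ∀ (R : Type) [CommRing R], Prop) : Prop :=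
  ∀ (k : ℕ) (σ : Fin k → Type) [∀ i, Finite (σ i)] (E : ∀ i, Set (MvPolynomial (σ i) ℤ))
    (τ : Type) [Finite τ] (E' : Set (MvPolynomial τ ℤ)),
    (∀ Q : (∀ (R : Type) [CommRing R], ℤ → Prop), RingCP Q → (∀ i, Good Q (E i)) → Good Q E') →
    (∀ i, GS G (E i)) → GS G E'

lemma semF_ctl (𝒞 : Set Scheme.{0}) : SemF (rg (Ctl 𝒞)) := by
  intro k σ _ E τ _ E' h hE
  choose F hF hF' hP using hE
  refine ⟨⋃ i, F i, Set.finite_iUnion hF, Set.iUnion_subset hF', fun P hP' hh => ?_⟩
  exact h (fun R _ => P (Spec (CommRingCat.of R))) hP'.ringCP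
    (fun i => hP i P hP' fun Y hY => hh Y (Set.mem_iUnion.2 ⟨i, hY⟩))

/-- **Reduction modulo `m`.** -/
theorem SemF.mod {G : ∀ (R : Type) [CommRing R], Prop} (hG : RG G) (hS : SemF G) (m : ℕ) :
    SemF (fun (R : Type) [CommRing R] => md G m R) := by
  intro k σ _ E τ _ E' h hE
  refine (gs_md hG (m := m) E').2 (hS k σ (fun i => insert (C (m : ℤ)) (E i)) τ _
    (fun Q hQ hk s => ?_) fun i => (gs_md hG (m := m) (E i)).1 (hE i))
  refine (qs_md hQ (m := m) E' s).1 (h _ (ringCP_mod hQ m) (fun i s => ?_) s)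
  exact (qs_md hQ (m := m) (E i) s).2 (hk i s)

/-- all numbers of relations -/
theorem gs_columns {G : ∀ (R : Type) [CommRing R], Prop} (hS : SemF G)
    {n : ℕ} {σ I : Type} [Finite σ] (L : I → Fin n → MvPolynomial σ ℤ)
    (E : Set (MvPolynomial σ ℤ)) (c : ℕ) (hc : 1 ≤ c)
    (h : ∀ i ≤ n, GS G (FS L E n (2 * c * i))) (j : ℕ) (hj : j ≤ n) : GS G (FS L E j 0) := by
  refine hS (n + 1) (fun i => FV n σ n (2 * c * (i : ℕ))) (fun i => FS L E n (2 * c * (i : ℕ)))
    (FV n σ j 0) _ (fun Q hQ hk => ?_) fun i => h i (by omega)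
  exact good_columns hQ L E c hc (fun i hi => hk ⟨i, by omega⟩) j hj

end Pool.Agent.Helper81.RP
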