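import Pool.Agent.Helper81.RP.Mono
import Pool.Agent.Helper81.HG.Col

/-!
# Representations of dimension two of quadratic monomial algebras
-/

set_option autoImplicit false

open MvPolynomial
open Pool.Agent.Helper81.CP Pool.Agent.Helper81.HG Pool.Agent.Helper45.RM

namespace Pool.Agent.Helper81.RP

/-! ### Coordinates, equalities and units -/

section
variable {τ : Type} (S : Set τ) (Rl : τ → τ → Prop) (U : Finset τ)

/-- some coordinates are zero and some are equal -/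
noncomputable def ceS : Set (MvPolynomial τ ℤ) :=
  (fun i => (X i : MvPolynomial τ ℤ)) '' S ∪
    (fun p : τ × τ => (X p.1 - X p.2 : MvPolynomial τ ℤ)) '' {p | Rl p.1 p.2}

lemma lc_unit {A : Type} [CommRing A] {y : τ → A} :
    IsUnit (ev y (∏ i ∈ U, X i)) ↔ ∀ i ∈ U, IsUnit (y i) := by
  rw [map_prod]
  constructor
  · intro h i hi
    have h3 := isUnit_of_dvd_unit (Finset.dvd_prod_of_mem (fun i => ev y (X i)) hi) h
    rwa [ev_X] at h3
  · intro h
    refine Finset.prod_induction (fun i => ev y (X i)) IsUnit (fun a b ha hb => ha.mul hb)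
      isUnit_one fun i hi => ?_
    rw [ev_X]
    exact h i hi

lemma lc_ce {A : Type} [CommRing A] {y : τ → A} : Lc (ceS S Rl) (∏ i ∈ U, X i) y ↔
    (∀ i ∈ S, y i = 0) ∧ (∀ i j, Rl i j → y i = y j) ∧ ∀ i ∈ U, IsUnit (y i) := by
  have h : Pt (ceS S Rl) y ↔ (∀ i ∈ S, y i = 0) ∧ ∀ p : τ × τ, Rl p.1 p.2 → y p.1 = y p.2 := by
    unfold ceS Pt
    simp only [Set.mem_union, or_imp, forall_and, Set.forall_mem_image, Set.mem_ofPred_eq, ev_X,
      map_sub, sub_eq_zero]
  unfold Lc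
  rw [lc_unit, h, and_assoc, Prod.forall]

lemma y_out {A : Type} {y : τ → A} (h : ∀ i j, Rl i j → y i = y j) (i : τ) :
    y (Quot.mk Rl i).out = y i := by
  let φ : Quot Rl → A := Quot.lift y h
  show φ (Quot.mk _ (Quot.mk Rl i).out) = φ (Quot.mk _ i)
  rw [Quot.out_eq]

lemma go_ce {G : ∀ (R : Type) [CommRing R], Prop} (hG : RG G)
    (h0 : GS G (∅ : Set (MvPolynomial Empty ℤ))) [Finite τ] :
    GO G (ceS S Rl) (∏ i ∈ U, X i) := by
  classical
  have hτ : ∀ {A : Type} [CommRing A] (y : Quot Rl → A),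
      Lc ((fun i => (X i : MvPolynomial (Quot Rl) ℤ)) '' (Quot.mk Rl '' S))
        (∏ i ∈ U.image (Quot.mk Rl), X i) y ↔
      (∀ i ∈ S, y (Quot.mk Rl i) = 0) ∧ ∀ i ∈ U, IsUnit (y (Quot.mk Rl i)) := by
    intro A _ y
    unfold Lc
    rw [lc_unit]
    unfold Pt
    simp only [Set.forall_mem_image, ev_X, Finset.forall_mem_image]
  refine (hG.gl_iso (E' := (fun i => (X i : MvPolynomial (Quot Rl) ℤ)) '' (Quot.mk Rl '' S))
    (p' := ∏ i ∈ U.image (Quot.mk Rl), X i)
    (fun A _ y c => y c.out) (fun A _ y i => y (Quot.mk Rl i)) ?_ ?_ ?_ ?_ ?_ ?_).mpr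
    (go_coord hG h0 _ _)
  · intro A B _ _ φ x _ j; rfl
  · intro A B _ _ φ x _ j; rfl
  · intro A _ x hx
    rw [lc_ce] at hx
    rw [hτ]
    refine ⟨fun i hi => ?_, fun i hi => ?_⟩
    · rw [y_out Rl hx.2.1]
      exact hx.1 i hi
    · rw [y_out Rl hx.2.1]
      exact hx.2.2 i hi
  · intro A _ y hy
    rw [hτ] at hy
    rw [lc_ce]
    exact ⟨hy.1, fun i j hij => congrArg y (Quot.sound hij), hy.2⟩
  · intro A _ x hx
    rw [lc_ce] at hx
    funext i
    exact y_out Rl hx.2.1 i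
  · intro A _ y _
    funext c
    exact congrArg y (Quot.out_eq c)

end

/-! ### Kinds of matrices -/

/-- kinds of `2 × 2` matrices -/
inductive Kd : Type
  | z | r1 | r2 | r3 | r4 | g1 | g2
  deriving DecidableEq

section
variable {A B : Type} [CommRing A] [CommRing B]

/-- matrices of a kind -/
def KX : Kd → (Fin 2 × Fin 2 → A) → Prop
  | Kd.z, m => m (0, 0) = 0 ∧ m (0, 1) = 0 ∧ m (1, 0) = 0 ∧ m (1, 1) = 0
  | Kd.r1, m => IsUnit (m (0, 1)) ∧ m (0, 0) * m (1, 1) = m (0, 1) * m (1, 0)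
  | Kd.r2, m => m (0, 1) = 0 ∧ m (0, 0) = 0 ∧ IsUnit (m (1, 1))
  | Kd.r3, m => m (0, 1) = 0 ∧ m (1, 1) = 0 ∧ IsUnit (m (0, 0))
  | Kd.r4, m => m (0, 1) = 0 ∧ m (1, 1) = 0 ∧ m (0, 0) = 0 ∧ IsUnit (m (1, 0))
  | Kd.g1, m => IsUnit (m (0, 0)) ∧ IsUnit (m (0, 0) * m (1, 1) - m (0, 1) * m (1, 0))
  | Kd.g2, m => m (0, 0) = 0 ∧ IsUnit (m (0, 1)) ∧ IsUnit (m (1, 0))

/-- coordinates for matrices of a kind -/
noncomputable def FX : Kd → (Fin 2 × Fin 2 → A) → Fin 6 → A
  | Kd.z, _ => ![0, 0, 0, 0, 0, 0]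
  | Kd.r1, m => ![m (0, 1), 0, 0, 0, m (1, 1) * Ring.inverse (m (0, 1)),
      - m (0, 0) * Ring.inverse (m (0, 1))]
  | Kd.r2, m => ![m (1, 1), 0, 0, 0, 0, - m (1, 0) * Ring.inverse (m (1, 1))]
  | Kd.r3, m => ![m (0, 0), 0, 0, 0, m (1, 0) * Ring.inverse (m (0, 0)), 0]
  | Kd.r4, m => ![m (1, 0), 0, 0, 0, 0, 0]
  | Kd.g1, m => ![m (0, 0), m (0, 1), m (1, 0), m (0, 0) * m (1, 1) - m (0, 1) * m (1, 0), 0, 0]
  | Kd.g2, m => ![m (0, 1), m (1, 1), 0, m (1, 0), 0, 0]

/-- the matrix with entries `a b c d` -/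
def ofE (a b c d : A) (p : Fin 2 × Fin 2) : A :=
  if p.1 = 0 then (if p.2 = 0 then a else b) else (if p.2 = 0 then c else d)

/-- the matrix with given coordinates -/
noncomputable def GM : Kd → (Fin 6 → A) → Fin 2 × Fin 2 → A
  | Kd.z, _ => ofE 0 0 0 0
  | Kd.r1, y => ofE (- (y 5 * y 0)) (y 0) (- (y 4 * y 5 * y 0)) (y 4 * y 0)
  | Kd.r2, y => ofE 0 0 (- (y 5 * y 0)) (y 0)
  | Kd.r3, y => ofE (y 0) 0 (y 4 * y 0) 0
  | Kd.r4, y => ofE 0 0 (y 0) 0
  | Kd.g1, y => ofE (y 0) (y 1) (y 2) ((y 3 + y 1 * y 2) * Ring.inverse (y 0))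
  | Kd.g2, y => ofE 0 (y 0) (y 3) (y 1)

/-- the coordinates which are zero -/
def SK : Kd → Finset (Fin 6)
  | Kd.z => {0, 1, 2, 3, 4, 5}
  | Kd.r1 => {1, 2, 3}
  | Kd.r2 => {1, 2, 3, 4}
  | Kd.r3 => {1, 2, 3, 5}
  | Kd.r4 => {1, 2, 3, 4, 5}
  | Kd.g1 => {4, 5}
  | Kd.g2 => {2, 4, 5}

/-- the coordinates which are units -/
def UK : Kd → Finset (Fin 6)
  | Kd.z => ∅
  | Kd.r1 => {0}
  | Kd.r2 => {0}
  | Kd.r3 => {0}
  | Kd.r4 => {0}
  | Kd.g1 => {0, 3}
  | Kd.g2 => {0, 3}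

/-- coordinates of matrices of a kind -/
def KY (k : Kd) (y : Fin 6 → A) : Prop := (∀ i ∈ SK k, y i = 0) ∧ ∀ i ∈ UK k, IsUnit (y i)

omit [CommRing A] in
lemma ofE_ext {a b c d : A} {m : Fin 2 × Fin 2 → A} (h1 : a = m (0, 0)) (h2 : b = m (0, 1))
    (h3 : c = m (1, 0)) (h4 : d = m (1, 1)) : ofE a b c d = m := by
  funext ⟨i, j⟩
  fin_cases i <;> fin_cases j
  · exact h1
  · exact h2
  · exact h3
  · exact h4

lemma map_ofE (φ : A →+* B) (a b c d : A) (p : Fin 2 × Fin 2) :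
    φ (ofE a b c d p) = ofE (φ a) (φ b) (φ c) (φ d) p := by
  unfold ofE
  split_ifs <;> rfl

omit [CommRing A] in
lemma f6_ext {x y : Fin 6 → A} (h0 : x 0 = y 0) (h1 : x 1 = y 1) (h2 : x 2 = y 2) (h3 : x 3 = y 3)
    (h4 : x 4 = y 4) (h5 : x 5 = y 5) : x = y := by
  funext i
  fin_cases i
  · exact h0
  · exact h1
  · exact h2
  · exact h3
  · exact h4
  · exact h5

lemma fx_nat (φ : A →+* B) {k : Kd} {m : Fin 2 × Fin 2 → A} (h : KX k m) (i : Fin 6) :
    φ (FX k m i) = FX k (fun p => φ (m p)) i := by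
  cases k
  · fin_cases i <;> simp [FX]
  · have h1 := map_inv_of_unit φ h.1
    fin_cases i <;> simp [FX, h1]
  · have h1 := map_inv_of_unit φ h.2.2
    fin_cases i <;> simp [FX, h1]
  · have h1 := map_inv_of_unit φ h.2.2
    fin_cases i <;> simp [FX, h1]
  · fin_cases i <;> simp [FX]
  · fin_cases i <;> simp [FX]
  · fin_cases i <;> simp [FX]

lemma gm_nat (φ : A →+* B) {k : Kd} {y : Fin 6 → A} (h : KY k y) (p : Fin 2 × Fin 2) :
    φ (GM k y p) = GM k (fun i => φ (y i)) p := by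
  cases k
  · simp only [GM, map_ofE, map_zero]
  · simp only [GM, map_ofE, map_neg, map_mul]
  · simp only [GM, map_ofE, map_neg, map_mul, map_zero]
  · simp only [GM, map_ofE, map_mul, map_zero]
  · simp only [GM, map_ofE, map_zero]
  · have h1 := map_inv_of_unit φ (h.2 0 (by simp [UK]))
    simp only [GM, map_ofE, map_mul, map_add, h1]
  · simp only [GM, map_ofE, map_zero]

lemma ky_fx {k : Kd} {m : Fin 2 × Fin 2 → A} (h : KX k m) : KY k (FX k m) := by
  cases k
  · simp [KY, SK, UK, FX]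
  · simp [KY, SK, UK, FX, h.1]
  · simp [KY, SK, UK, FX, h.2.2]
  · simp [KY, SK, UK, FX, h.2.2]
  · simp [KY, SK, UK, FX, h.2.2.2]
  · simp [KY, SK, UK, FX, h.1, h.2]
  · simp [KY, SK, UK, FX, h.2.1, h.2.2]

lemma kx_gm {k : Kd} {y : Fin 6 → A} (h : KY k y) : KX k (GM k y) := by
  cases k
  · simp [KX, GM, ofE]
  · have h1 := h.2 0 (by simp [UK])
    refine ⟨?_, ?_⟩
    · simpa [GM, ofE] using h1
    · simp [GM, ofE]
      ring
  · have h1 := h.2 0 (by simp [UK])
    simp [KX, GM, ofE, h1]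
  · have h1 := h.2 0 (by simp [UK])
    simp [KX, GM, ofE, h1]
  · have h1 := h.2 0 (by simp [UK])
    simp [KX, GM, ofE, h1]
  · have h1 := h.2 0 (by simp [UK])
    have h3 := h.2 3 (by simp [UK])
    refine ⟨by simpa [GM, ofE] using h1, ?_⟩
    have h2 : y 0 * Ring.inverse (y 0) = 1 := Ring.mul_inverse_cancel _ h1
    have h4 : y 0 * ((y 3 + y 1 * y 2) * Ring.inverse (y 0)) - y 1 * y 2 = y 3 := by
      linear_combination (y 3 + y 1 * y 2) * h2
    simp [GM, ofE, h4, h3]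
  · have h1 := h.2 0 (by simp [UK])
    have h3 := h.2 3 (by simp [UK])
    simp [KX, GM, ofE, h1, h3]

lemma gm_fx {k : Kd} {m : Fin 2 × Fin 2 → A} (h : KX k m) : GM k (FX k m) = m := by
  cases k
  · exact ofE_ext h.1.symm h.2.1.symm h.2.2.1.symm h.2.2.2.symm
  · have h2 : m (0, 1) * Ring.inverse (m (0, 1)) = 1 := Ring.mul_inverse_cancel _ h.1
    refine ofE_ext ?_ ?_ ?_ ?_
    · simp [FX]
      linear_combination m (0, 0) * h2
    · simp [FX]
    · simp [FX]
      linear_combination (m (0, 1) * Ring.inverse (m (0, 1)) * Ring.inverse (m (0, 1))) * h.2 +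
        m (1, 0) * (m (0, 1) * Ring.inverse (m (0, 1)) + 1) * h2
    · simp [FX]
      linear_combination m (1, 1) * h2
  · have h2 : m (1, 1) * Ring.inverse (m (1, 1)) = 1 := Ring.mul_inverse_cancel _ h.2.2
    refine ofE_ext h.2.1.symm h.1.symm ?_ ?_
    · simp [FX]
      linear_combination m (1, 0) * h2
    · simp [FX]
  · have h2 : m (0, 0) * Ring.inverse (m (0, 0)) = 1 := Ring.mul_inverse_cancel _ h.2.2
    refine ofE_ext ?_ h.1.symm ?_ h.2.1.symm
    · simp [FX]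
    · simp [FX]
      linear_combination m (1, 0) * h2
  · refine ofE_ext h.2.2.1.symm h.1.symm ?_ h.2.1.symm
    simp [FX]
  · have h2 : m (0, 0) * Ring.inverse (m (0, 0)) = 1 := Ring.mul_inverse_cancel _ h.1
    refine ofE_ext ?_ ?_ ?_ ?_
    · simp [FX]
    · simp [FX]
    · simp [FX]
    · simp [FX]
      linear_combination m (1, 1) * h2
  · refine ofE_ext h.1.symm ?_ ?_ ?_
    · simp [FX]
    · simp [FX]
    · simp [FX]

lemma fx_gm {k : Kd} {y : Fin 6 → A} (h : KY k y) : FX k (GM k y) = y := by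
  obtain ⟨hs, hu⟩ := h
  cases k
  · simp only [SK, Finset.mem_insert, Finset.mem_singleton, forall_eq_or_imp, forall_eq] at hs
    refine f6_ext ?_ ?_ ?_ ?_ ?_ ?_ <;> simp [FX, hs]
  · simp only [SK, Finset.mem_insert, Finset.mem_singleton, forall_eq_or_imp, forall_eq] at hs
    have h2 : y 0 * Ring.inverse (y 0) = 1 := Ring.mul_inverse_cancel _ (hu 0 (by simp [UK]))
    refine f6_ext ?_ ?_ ?_ ?_ ?_ ?_
    · simp [FX, GM, ofE]
    · simp [FX, hs]
    · simp [FX, hs]
    · simp [FX, hs]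
    · simp [FX, GM, ofE]
      linear_combination y 4 * h2
    · simp [FX, GM, ofE]
      linear_combination y 5 * h2
  · simp only [SK, Finset.mem_insert, Finset.mem_singleton, forall_eq_or_imp, forall_eq] at hs
    have h2 : y 0 * Ring.inverse (y 0) = 1 := Ring.mul_inverse_cancel _ (hu 0 (by simp [UK]))
    refine f6_ext ?_ ?_ ?_ ?_ ?_ ?_
    · simp [FX, GM, ofE]
    · simp [FX, hs]
    · simp [FX, hs]
    · simp [FX, hs]
    · simp [FX, hs]
    · simp [FX, GM, ofE]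
      linear_combination y 5 * h2
  · simp only [SK, Finset.mem_insert, Finset.mem_singleton, forall_eq_or_imp, forall_eq] at hs
    have h2 : y 0 * Ring.inverse (y 0) = 1 := Ring.mul_inverse_cancel _ (hu 0 (by simp [UK]))
    refine f6_ext ?_ ?_ ?_ ?_ ?_ ?_
    · simp [FX, GM, ofE]
    · simp [FX, hs]
    · simp [FX, hs]
    · simp [FX, hs]
    · simp [FX, GM, ofE]
      linear_combination y 4 * h2
    · simp [FX, hs]
  · simp only [SK, Finset.mem_insert, Finset.mem_singleton, forall_eq_or_imp, forall_eq] at hs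
    refine f6_ext ?_ ?_ ?_ ?_ ?_ ?_
    · simp [FX, GM, ofE]
    · simp [FX, hs]
    · simp [FX, hs]
    · simp [FX, hs]
    · simp [FX, hs]
    · simp [FX, hs]
  · simp only [SK, Finset.mem_insert, Finset.mem_singleton, forall_eq_or_imp, forall_eq] at hs
    have h2 : y 0 * Ring.inverse (y 0) = 1 := Ring.mul_inverse_cancel _ (hu 0 (by simp [UK]))
    refine f6_ext ?_ ?_ ?_ ?_ ?_ ?_
    · simp [FX, GM, ofE]
    · simp [FX, GM, ofE]
    · simp [FX, GM, ofE]
    · simp [FX, GM, ofE]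
      linear_combination (y 3 + y 1 * y 2) * h2
    · simp [FX, hs]
    · simp [FX, hs]
  · simp only [SK, Finset.mem_insert, Finset.mem_singleton, forall_eq_or_imp, forall_eq] at hs
    refine f6_ext ?_ ?_ ?_ ?_ ?_ ?_
    · simp [FX, GM, ofE]
    · simp [FX, GM, ofE]
    · simp [FX, hs]
    · simp [FX, GM, ofE]
    · simp [FX, hs]
    · simp [FX, hs]

end

/-! ### Products -/

/-- the kernel: everything, a line with a slope, the vertical line, zero -/
def tK : Kd → Fin 4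
  | Kd.z => 0
  | Kd.r1 => 1
  | Kd.r2 => 1
  | Kd.r3 => 2
  | Kd.r4 => 2
  | Kd.g1 => 3
  | Kd.g2 => 3

/-- the image: zero, a line with a slope, the vertical line, everything -/
def tI : Kd → Fin 4
  | Kd.z => 0
  | Kd.r1 => 1
  | Kd.r2 => 2
  | Kd.r3 => 1
  | Kd.r4 => 2
  | Kd.g1 => 3
  | Kd.g2 => 3

/-- kinds for which the product is not zero -/
def bad (k l : Kd) : Prop := tK k ≠ 0 ∧ tI l ≠ 0 ∧ (tK k ≠ tI l ∨ tK k = 3)

section
variable {A : Type} [CommRing A]

/-- the product is zero -/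
def Prd (x x' : Fin 2 × Fin 2 → A) : Prop := ∀ i j, ∑ k, x (i, k) * x' (k, j) = 0

/-- a vector in the image -/
def Um (k : Kd) (y : Fin 6 → A) (i : Fin 2) : A :=
  if tI k = 1 then (if i = 0 then 1 else y 4) else (if i = 0 then 0 else 1)

/-- a linear form which vanishes on the kernel -/
def Wm (k : Kd) (y : Fin 6 → A) (j : Fin 2) : A :=
  if tK k = 1 then (if j = 0 then - y 5 else 1) else (if j = 0 then 1 else 0)

lemma gm_rk {k : Kd} (hk : tK k = 1 ∨ tK k = 2) (y : Fin 6 → A) (i j : Fin 2) :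
    GM k y (i, j) = y 0 * Um k y i * Wm k y j := by
  have hc : ∀ i : Fin 2, i = 0 ∨ i = 1 := by decide
  cases k
  · exact absurd hk (by decide)
  · rcases hc i with rfl | rfl <;> rcases hc j with rfl | rfl <;>
      simp [GM, Um, Wm, tK, tI, ofE] <;> ring
  · rcases hc i with rfl | rfl <;> rcases hc j with rfl | rfl <;>
      simp [GM, Um, Wm, tK, tI, ofE]
    ring
  · rcases hc i with rfl | rfl <;> rcases hc j with rfl | rfl <;>
      simp [GM, Um, Wm, tK, tI, ofE]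
    ring
  · rcases hc i with rfl | rfl <;> rcases hc j with rfl | rfl <;>
      simp [GM, Um, Wm, tK, tI, ofE]
  · exact absurd hk (by decide)
  · exact absurd hk (by decide)

lemma unit_rk {k : Kd} (hk : tK k = 1 ∨ tK k = 2) {y : Fin 6 → A} (h : KY k y) :
    IsUnit (y 0) := by
  cases k
  · exact absurd hk (by decide)
  · exact h.2 0 (by simp [UK])
  · exact h.2 0 (by simp [UK])
  · exact h.2 0 (by simp [UK])
  · exact h.2 0 (by simp [UK])
  · exact absurd hk (by decide)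
  · exact absurd hk (by decide)

lemma rk_iff {k : Kd} : (tK k = 1 ∨ tK k = 2) ↔ (tI k = 1 ∨ tI k = 2) := by
  cases k <;> decide

lemma prd_rk {k l : Kd} (hk : tK k = 1 ∨ tK k = 2) (hl : tI l = 1 ∨ tI l = 2)
    {x x' : Fin 2 × Fin 2 → A} (hx : KX k x) (hx' : KX l x') :
    Prd x x' ↔ ∑ c, Wm k (FX k x) c * Um l (FX l x') c = 0 := by
  have hl' : tK l = 1 ∨ tK l = 2 := rk_iff.2 hl
  have e : ∀ i c, x (i, c) = FX k x 0 * Um k (FX k x) i * Wm k (FX k x) c := by
    intro i c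
    rw [← gm_rk hk, gm_fx hx]
  have e' : ∀ c j, x' (c, j) = FX l x' 0 * Um l (FX l x') c * Wm l (FX l x') j := by
    intro c j
    rw [← gm_rk hl', gm_fx hx']
  have key : ∀ i j, ∑ c, x (i, c) * x' (c, j) = FX k x 0 * FX l x' 0 *
      (Um k (FX k x) i * Wm l (FX l x') j) * ∑ c, Wm k (FX k x) c * Um l (FX l x') c := by
    intro i j
    rw [Finset.mul_sum]
    refine Finset.sum_congr rfl fun c _ => ?_
    rw [e, e']
    ring
  constructor
  · intro h
    obtain ⟨i, hi⟩ : ∃ i, Um k (FX k x) i = 1 := by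
      by_cases h1 : tI k = 1
      · exact ⟨0, by simp [Um, h1]⟩
      · exact ⟨1, by simp [Um, h1]⟩
    obtain ⟨j, hj⟩ : ∃ j, Wm l (FX l x') j = 1 := by
      by_cases h1 : tK l = 1
      · exact ⟨1, by simp [Wm, h1]⟩
      · exact ⟨0, by simp [Wm, h1]⟩
    have h1 := h i j
    rw [key, hi, hj, mul_one, mul_one] at h1
    have h2 := (unit_rk hk (ky_fx hx)).mul (unit_rk hl' (ky_fx hx'))
    exact (IsUnit.mul_right_eq_zero h2).1 h1
  · intro h i j
    rw [key, h, mul_zero]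

lemma det_unit {k : Kd} (hk : tK k = 3) {x : Fin 2 × Fin 2 → A} (hx : KX k x) :
    IsUnit (x (0, 0) * x (1, 1) - x (0, 1) * x (1, 0)) := by
  cases k
  · exact absurd hk (by decide)
  · exact absurd hk (by decide)
  · exact absurd hk (by decide)
  · exact absurd hk (by decide)
  · exact absurd hk (by decide)
  · exact hx.2
  · rw [hx.1, zero_mul, zero_sub]
    exact (hx.2.1.mul hx.2.2).neg

lemma prd_left {k : Kd} (hk : tK k = 3) {x x' : Fin 2 × Fin 2 → A} (hx : KX k x)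
    (h : Prd x x') : ∀ p, x' p = 0 := by
  have hd := det_unit hk hx
  have h1 : ∀ i j, x (i, 0) * x' (0, j) + x (i, 1) * x' (1, j) = 0 := by
    intro i j
    have := h i j
    rwa [Fin.sum_univ_two] at this
  rintro ⟨i, j⟩
  have hc : i = 0 ∨ i = 1 := by
    fin_cases i
    · exact Or.inl rfl
    · exact Or.inr rfl
  refine (IsUnit.mul_right_eq_zero hd).1 ?_
  rcases hc with rfl | rfl
  · linear_combination x (1, 1) * h1 0 j - x (0, 1) * h1 1 j
  · linear_combination x (0, 0) * h1 1 j - x (1, 0) * h1 0 j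

lemma prd_right {l : Kd} (hl : tK l = 3) {x x' : Fin 2 × Fin 2 → A} (hx' : KX l x')
    (h : Prd x x') : ∀ p, x p = 0 := by
  have hd := det_unit hl hx'
  have h1 : ∀ i j, x (i, 0) * x' (0, j) + x (i, 1) * x' (1, j) = 0 := by
    intro i j
    have := h i j
    rwa [Fin.sum_univ_two] at this
  rintro ⟨i, j⟩
  have hc : j = 0 ∨ j = 1 := by
    fin_cases j
    · exact Or.inl rfl
    · exact Or.inr rfl
  refine (IsUnit.mul_right_eq_zero hd).1 ?_
  rcases hc with rfl | rfl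
  · linear_combination x' (1, 1) * h1 i 0 - x' (1, 0) * h1 i 1
  · linear_combination x' (0, 0) * h1 i 1 - x' (0, 1) * h1 i 0

lemma one_of_zero {k : Kd} (hk : tK k ≠ 0) {x : Fin 2 × Fin 2 → A} (hx : KX k x)
    (h : ∀ p, x p = 0) : (1 : A) = 0 := by
  have h0 : ∀ {a : A}, IsUnit a → a = 0 → (1 : A) = 0 := by
    intro a ha h1
    rw [h1] at ha
    exact (isUnit_zero_iff.1 ha).symm
  cases k
  · exact absurd rfl hk
  · exact h0 hx.1 (h _)
  · exact h0 hx.2.2 (h _)
  · exact h0 hx.2.2 (h _)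
  · exact h0 hx.2.2.2 (h _)
  · exact h0 hx.1 (h _)
  · exact h0 hx.2.1 (h _)

lemma tK_zero {k : Kd} : tK k = 0 ↔ k = Kd.z := by cases k <;> decide
lemma tI_zero {k : Kd} : tI k = 0 ↔ k = Kd.z := by cases k <;> decide
lemma tI_three {k : Kd} : tI k = 3 ↔ tK k = 3 := by cases k <;> decide
lemma tK_cases (k : Kd) : tK k = 0 ∨ tK k = 3 ∨ (tK k = 1 ∨ tK k = 2) := by cases k <;> decide
lemma tI_cases (k : Kd) : tI k = 0 ∨ tI k = 3 ∨ (tI k = 1 ∨ tI k = 2) := by cases k <;> decide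

lemma sum_WU {k l : Kd} (y y' : Fin 6 → A) : ∑ c, Wm k y c * Um l y' c =
    if tK k = 1 then (if tI l = 1 then - y 5 + y' 4 else 1) else (if tI l = 1 then 1 else 0) := by
  have e : (1 : Fin 2) ≠ 0 := by decide
  rw [Fin.sum_univ_two]
  unfold Wm Um
  rw [if_pos rfl, if_pos rfl, if_pos rfl, if_pos rfl, if_neg e, if_neg e, if_neg e, if_neg e]
  split_ifs <;> ring

lemma edge_bad {k l : Kd} {x x' : Fin 2 × Fin 2 → A} (hx : KX k x) (hx' : KX l x')
    (hb : bad k l) (h : Prd x x') : (1 : A) = 0 := by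
  obtain ⟨h1, h2, h3⟩ := hb
  rcases tK_cases k with hk | hk | hk
  · exact absurd hk h1
  · exact one_of_zero (fun hl => h2 (tI_zero.2 (tK_zero.1 hl))) hx' (prd_left hk hx h)
  · rcases tI_cases l with hl | hl | hl
    · exact absurd hl h2
    · exact one_of_zero h1 hx (prd_right (tI_three.1 hl) hx' h)
    · have h4 := (prd_rk hk hl hx hx').1 h
      rw [sum_WU] at h4
      have h5 : tK k ≠ tI l := by
        rcases h3 with h3 | h3
        · exact h3
        · rcases hk with hk | hk <;> rw [hk] at h3 <;> exact absurd h3 (by decide)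
      rcases hk with hk | hk <;> rcases hl with hl | hl
      · exact absurd (hk.trans hl.symm) h5
      · rw [if_pos hk, if_neg (by rw [hl]; decide)] at h4
        exact h4
      · rw [if_neg (by rw [hk]; decide), if_pos hl] at h4
        exact h4
      · exact absurd (hk.trans hl.symm) h5

lemma edge_ok {k l : Kd} {x x' : Fin 2 × Fin 2 → A} (hx : KX k x) (hx' : KX l x')
    (hb : ¬ bad k l) : Prd x x' ↔ (tK k = 1 → tI l = 1 → FX k x 5 = FX l x' 4) := by
  by_cases h1 : tK k = 0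
  · have hk := tK_zero.1 h1
    subst hk
    obtain ⟨a1, a2, a3, a4⟩ := hx
    have hz : ∀ p, x p = 0 := by
      rintro ⟨i, j⟩
      fin_cases i <;> fin_cases j <;> assumption
    exact ⟨fun _ h => absurd h (by decide), fun _ i j =>
      Finset.sum_eq_zero fun c _ => by rw [hz, zero_mul]⟩
  by_cases h2 : tI l = 0
  · have hl := tI_zero.1 h2
    subst hl
    obtain ⟨a1, a2, a3, a4⟩ := hx'
    have hz : ∀ p, x' p = 0 := by
      rintro ⟨i, j⟩
      fin_cases i <;> fin_cases j <;> assumption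
    exact ⟨fun _ _ h => absurd h (by decide), fun _ i j =>
      Finset.sum_eq_zero fun c _ => by rw [hz, mul_zero]⟩
  have h3 : tK k = tI l ∧ tK k ≠ 3 := by
    unfold bad at hb
    push Not at hb
    exact hb h1 h2
  have hk : tK k = 1 ∨ tK k = 2 := by
    rcases tK_cases k with h | h | h
    · exact absurd h h1
    · exact absurd h h3.2
    · exact h
  have hl : tI l = 1 ∨ tI l = 2 := by rwa [← h3.1]
  rw [prd_rk hk hl hx hx', sum_WU]
  rcases hk with hk | hk
  · have hl' : tI l = 1 := h3.1.symm.trans hk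
    rw [if_pos hk, if_pos hl']
    constructor
    · intro h _ _
      linear_combination -h
    · intro h
      rw [h hk hl']
      ring
  · have hk' : tK k ≠ 1 := by rw [hk]; decide
    have hl' : tI l ≠ 1 := by rw [← h3.1, hk]; decide
    rw [if_neg hk', if_neg hl']
    exact ⟨fun _ h => absurd h hk', fun _ => rfl⟩

end

/-! ### The strata -/

section
variable {V : Type}

lemma pt_mon2 {D : Set (V × V)} {R : Type} [CommRing R] {x : V × (Fin 2 × Fin 2) → R} :
    Pt (monS 2 D) x ↔ ∀ v w, (v, w) ∈ D → Prd (fun q => x (v, q)) (fun q => x (w, q)) := by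
  rw [pt_mon]
  exact ⟨fun h v w hvw => h (v, w) hvw, fun h e he => h e.1 e.2 he⟩

variable [Finite V] {G : ∀ (R : Type) [CommRing R], Prop} (hG : RG G)
  (h0 : GS G (∅ : Set (MvPolynomial Empty ℤ)))

include hG h0

lemma go_kinds (D : Set (V × V)) (t : V → Kd) (E : Set (MvPolynomial (V × (Fin 2 × Fin 2)) ℤ))
    (p : MvPolynomial (V × (Fin 2 × Fin 2)) ℤ)
    (h : ∀ (A : Type) [CommRing A] (x : V × (Fin 2 × Fin 2) → A), Lc E p x ↔
      Pt (monS 2 D) x ∧ ∀ v, KX (t v) (fun q => x (v, q))) : GO G E p := by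
  classical
  have := Fintype.ofFinite V
  by_cases hD : ∃ v w, (v, w) ∈ D ∧ bad (t v) (t w)
  · obtain ⟨v, w, hvw, hc⟩ := hD
    refine hG.triv _ (subsingleton_rng fun A _ x hx => ?_)
    rw [Pt.dop_iff_lc, h] at hx
    exact edge_bad (hx.1.2 v) (hx.1.2 w) hc (pt_mon2.1 hx.1.1 v w hvw)
  push Not at hD
  let S : Set (V × Fin 6) := {q | q.2 ∈ SK (t q.1)}
  let Rl : V × Fin 6 → V × Fin 6 → Prop := fun q r =>
    (q.1, r.1) ∈ D ∧ tK (t q.1) = 1 ∧ tI (t r.1) = 1 ∧ q.2 = 5 ∧ r.2 = 4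
  let U : Finset (V × Fin 6) := Finset.univ.filter fun q => q.2 ∈ UK (t q.1)
  have hτ : ∀ {A : Type} [CommRing A] (y : V × Fin 6 → A),
      Lc (ceS S Rl) (∏ i ∈ U, X i) y ↔ (∀ v, KY (t v) (fun i => y (v, i))) ∧
        ∀ v w, (v, w) ∈ D → tK (t v) = 1 → tI (t w) = 1 → y (v, 5) = y (w, 4) := by
    intro A _ y
    rw [lc_ce]
    constructor
    · rintro ⟨h1, h2, h3⟩
      refine ⟨fun v => ⟨fun i hi => h1 (v, i) hi, fun i hi => h3 (v, i) ?_⟩,
        fun v w hvw hv hw => h2 (v, 5) (w, 4) ⟨hvw, hv, hw, rfl, rfl⟩⟩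
      exact Finset.mem_filter.2 ⟨Finset.mem_univ _, hi⟩
    · rintro ⟨h1, h2⟩
      refine ⟨fun q hq => (h1 q.1).1 q.2 hq, ?_, fun q hq => (h1 q.1).2 q.2
        (Finset.mem_filter.1 hq).2⟩
      rintro ⟨v, i⟩ ⟨w, j⟩ ⟨a1, a2, a3, a4, a5⟩
      have a4' : i = 5 := a4
      have a5' : j = 4 := a5
      rw [a4', a5']
      exact h2 v w a1 a2 a3
  refine (hG.gl_iso (E' := ceS S Rl) (p' := ∏ i ∈ U, X i)
    (fun A _ x q => FX (t q.1) (fun r => x (q.1, r)) q.2)
    (fun A _ y q => GM (t q.1) (fun i => y (q.1, i)) q.2)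
    ?_ ?_ ?_ ?_ ?_ ?_).mpr (go_ce S Rl U hG h0)
  · intro A B _ _ φ x hx q
    rw [h] at hx
    exact fx_nat φ (hx.2 q.1) q.2
  · intro A B _ _ φ y hy q
    rw [hτ] at hy
    exact gm_nat φ (hy.1 q.1) q.2
  · intro A _ x hx
    rw [h] at hx
    rw [hτ]
    refine ⟨fun v => ky_fx (hx.2 v), fun v w hvw hv hw => ?_⟩
    exact (edge_ok (hx.2 v) (hx.2 w) (hD v w hvw)).1 (pt_mon2.1 hx.1 v w hvw) hv hw
  · intro A _ y hy
    rw [hτ] at hy
    rw [h]
    have hk : ∀ v, KX (t v) (fun q => GM (t v) (fun i => y (v, i)) q) := fun v => kx_gm (hy.1 v)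
    refine ⟨pt_mon2.2 fun v w hvw => ?_, hk⟩
    refine (edge_ok (hk v) (hk w) (hD v w hvw)).2 fun hv hw => ?_
    have e1 : FX (t v) (fun q => GM (t v) (fun i => y (v, i)) q) = fun i => y (v, i) :=
      fx_gm (hy.1 v)
    have e2 : FX (t w) (fun q => GM (t w) (fun i => y (w, i)) q) = fun i => y (w, i) :=
      fx_gm (hy.1 w)
    rw [e1, e2]
    exact hy.2 v w hvw hv hw
  · intro A _ x hx
    rw [h] at hx
    funext q
    have e1 : GM (t q.1) (FX (t q.1) (fun r => x (q.1, r))) = fun r => x (q.1, r) :=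
      gm_fx (hx.2 q.1)
    exact congrFun e1 q.2
  · intro A _ y hy
    rw [hτ] at hy
    funext q
    have e1 : FX (t q.1) (GM (t q.1) (fun i => y (q.1, i))) = fun i => y (q.1, i) :=
      fx_gm (hy.1 q.1)
    exact congrFun e1 q.2

/-- **Representations of dimension two.** -/
theorem gs_mon_two (D : Set (V × V)) : GS G (monS 2 D) := by
  classical
  have := Fintype.ofFinite V
  have key : ∀ (u : Finset V) (t : V → Kd) (E : Set (MvPolynomial (V × (Fin 2 × Fin 2)) ℤ))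
      (p : MvPolynomial (V × (Fin 2 × Fin 2)) ℤ),
      (∀ (A : Type) [CommRing A] (x : V × (Fin 2 × Fin 2) → A), Lc E p x ↔
        Pt (monS 2 D) x ∧ ∀ v, v ∉ u → KX (t v) (fun q => x (v, q))) → GO G E p := by
    intro u
    induction u using Finset.induction_on with
    | empty =>
      intro t E p h
      refine go_kinds hG h0 D t E p fun A _ x => ?_
      rw [h A x]
      simp
    | insert a u ha ih =>
      intro t E p h
      have hk : ∀ (k : Kd) (A : Type) [CommRing A] (x : V × (Fin 2 × Fin 2) → A),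
          (Lc E p x ∧ KX k (fun q => x (a, q))) ↔
          (Pt (monS 2 D) x ∧ ∀ v, v ∉ u →
            KX (Function.update t a k v) (fun q => x (v, q))) := by
        intro k A _ x
        rw [h A x]
        constructor
        · rintro ⟨⟨h1, h2⟩, h3⟩
          refine ⟨h1, fun v hv => ?_⟩
          by_cases hva : v = a
          · subst hva
            rw [Function.update_self]
            exact h3
          · rw [Function.update_of_ne hva]
            exact h2 v (by simp [hva, hv])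
        · rintro ⟨h1, h2⟩
          refine ⟨⟨h1, fun v hv => ?_⟩, ?_⟩
          · rw [Finset.mem_insert, not_or] at hv
            have h3 := h2 v hv.2
            rwa [Function.update_of_ne hv.1] at h3
          · have h3 := h2 a ha
            rwa [Function.update_self] at h3
      let δ : MvPolynomial (V × (Fin 2 × Fin 2)) ℤ :=
        X (a, (0, 0)) * X (a, (1, 1)) - X (a, (0, 1)) * X (a, (1, 0))
      have hδ : ∀ (A : Type) [CommRing A] (x : V × (Fin 2 × Fin 2) → A),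
          ev x δ = x (a, (0, 0)) * x (a, (1, 1)) - x (a, (0, 1)) * x (a, (1, 0)) := by
        intro A _ x
        simp only [δ, map_sub, map_mul, ev_X]
      refine hG.gl_glue δ (hG.gl_glue (X (a, (0, 1))) (hG.gl_glue (X (a, (1, 1)))
        (hG.gl_glue (X (a, (0, 0))) (hG.gl_glue (X (a, (1, 0))) ?_ ?_) ?_) ?_) ?_)
        (hG.gl_glue (X (a, (0, 0))) ?_ ?_)
      · refine ih (Function.update t a Kd.z) _ _ fun A _ x => ?_
        rw [← hk Kd.z A x]
        unfold Lc KX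
        simp only [Pt.insert_iff, ev_X, hδ]
        constructor
        · rintro ⟨⟨h1, h2, h3, h4, h5, h6⟩, h7⟩
          exact ⟨⟨h6, h7⟩, h2, h4, h1, h3⟩
        · rintro ⟨⟨h6, h7⟩, h2, h4, h1, h3⟩
          exact ⟨⟨h1, h2, h3, h4, by rw [h2, h4]; ring, h6⟩, h7⟩
      · refine ih (Function.update t a Kd.r4) _ _ fun A _ x => ?_
        rw [← hk Kd.r4 A x]
        unfold Lc KX
        simp only [Pt.insert_iff, ev_X, hδ, map_mul, IsUnit.mul_iff]
        constructor
        · rintro ⟨⟨h1, h2, h3, h4, h5⟩, h6, h7⟩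
          exact ⟨⟨h5, h6⟩, h3, h2, h1, h7⟩
        · rintro ⟨⟨h5, h6⟩, h3, h2, h1, h7⟩
          exact ⟨⟨h1, h2, h3, by rw [h1, h3]; ring, h5⟩, h6, h7⟩
      · refine ih (Function.update t a Kd.r3) _ _ fun A _ x => ?_
        rw [← hk Kd.r3 A x]
        unfold Lc KX
        simp only [Pt.insert_iff, ev_X, hδ, map_mul, IsUnit.mul_iff]
        constructor
        · rintro ⟨⟨h1, h2, h3, h4⟩, h5, h6⟩
          exact ⟨⟨h4, h5⟩, h2, h1, h6⟩
        · rintro ⟨⟨h4, h5⟩, h2, h1, h6⟩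
          exact ⟨⟨h1, h2, by rw [h1, h2]; ring, h4⟩, h5, h6⟩
      · refine ih (Function.update t a Kd.r2) _ _ fun A _ x => ?_
        rw [← hk Kd.r2 A x]
        unfold Lc KX
        simp only [Pt.insert_iff, ev_X, hδ, map_mul, IsUnit.mul_iff]
        constructor
        · rintro ⟨⟨h1, h2, h3⟩, h4, h5⟩
          refine ⟨⟨h3, h4⟩, h1, ?_, h5⟩
          rw [h1, zero_mul, sub_zero] at h2
          exact (IsUnit.mul_left_eq_zero h5).1 h2
        · rintro ⟨⟨h3, h4⟩, h1, h2, h5⟩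
          exact ⟨⟨h1, by rw [h1, h2]; ring, h3⟩, h4, h5⟩
      · refine ih (Function.update t a Kd.r1) _ _ fun A _ x => ?_
        rw [← hk Kd.r1 A x]
        unfold Lc KX
        simp only [Pt.insert_iff, ev_X, hδ, map_mul, IsUnit.mul_iff, sub_eq_zero]
        tauto
      · refine ih (Function.update t a Kd.g2) _ _ fun A _ x => ?_
        rw [← hk Kd.g2 A x]
        unfold Lc KX
        simp only [Pt.insert_iff, ev_X, hδ, map_mul, IsUnit.mul_iff]
        constructor
        · rintro ⟨⟨h1, h2⟩, h3, h4⟩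
          rw [h1, zero_mul, zero_sub, IsUnit.neg_iff, IsUnit.mul_iff] at h4
          exact ⟨⟨h2, h3⟩, h1, h4⟩
        · rintro ⟨⟨h2, h3⟩, h1, h4⟩
          refine ⟨⟨h1, h2⟩, h3, ?_⟩
          rw [h1, zero_mul, zero_sub, IsUnit.neg_iff, IsUnit.mul_iff]
          exact h4
      · refine ih (Function.update t a Kd.g1) _ _ fun A _ x => ?_
        rw [← hk Kd.g1 A x]
        unfold Lc KX
        simp only [ev_X, hδ, map_mul, IsUnit.mul_iff]
        tauto
  have h1 := key Finset.univ (fun _ => Kd.z) (monS 2 D) 1 fun A _ x => by simp [Lc]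
  rwa [hG.gl_one] at h1

end

end Pool.Agent.Helper81.RP
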